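import Pool.Agent.V8H53.OW.Defs

/-!
De Giorgi's lemma for the project OW of helper53 (helper63): the truncations are taken above a
fixed barrier `kap + l`, so that no cut-off functions are needed.
-/

set_option autoImplicit false

open MeasureTheory Set Metric Filter Topology
open scoped ContDiff
open H459R3.NS
open Pool.Agent.TH305.AX (sg)
open Pool.Agent.Q67.AXI (RR gr2 GD Co)

namespace Pool.Agent.V8H63.OW

/-! ### Powers of the positive part -/

/-- `max y 0 ^ n` -/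
noncomputable def pp (n : ℕ) (y : ℝ) : ℝ := (max y 0) ^ n

lemma pp_nonneg (n : ℕ) (y : ℝ) : 0 ≤ pp n y := by unfold pp; positivity

lemma pp_zero {n : ℕ} (hn : n ≠ 0) {y : ℝ} (hy : y ≤ 0) : pp n y = 0 := by
  unfold pp
  rw [max_eq_right hy, zero_pow hn]

lemma pp_pos (n : ℕ) {y : ℝ} (hy : 0 ≤ y) : pp n y = y ^ n := by
  unfold pp
  rw [max_eq_left hy]

lemma pp_cont (n : ℕ) : Continuous (pp n) := by
  unfold pp
  fun_prop

lemma pp_hd (n : ℕ) (hn : n ≠ 0) (y : ℝ) : HasDerivAt (pp (n + 1)) ((n + 1) * pp n y) y := by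
  rcases lt_trichotomy y 0 with hy | hy | hy
  · have h1 : pp (n + 1) =ᶠ[𝓝 y] fun _ => 0 := by
      filter_upwards [gt_mem_nhds hy] with z hz
      exact pp_zero (by omega) hz.le
    rw [pp_zero hn hy.le, mul_zero]
    exact (hasDerivAt_const y (0 : ℝ)).congr_of_eventuallyEq h1
  · subst hy
    rw [pp_zero hn le_rfl, mul_zero, hasDerivAt_iff_isLittleO]
    simp only [sub_zero, smul_zero]
    rw [pp_zero (by omega) le_rfl]
    simp only [sub_zero]
    have h1 : (fun x : ℝ => pp (n + 1) x) =O[𝓝 0] fun x => x ^ (n + 1) := by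
      refine Asymptotics.IsBigO.of_bound 1 (Filter.Eventually.of_forall fun x => ?_)
      rw [one_mul, norm_pow, Real.norm_eq_abs, Real.norm_eq_abs, abs_of_nonneg (pp_nonneg _ _)]
      unfold pp
      exact pow_le_pow_left₀ (le_max_right _ _) (max_le (le_abs_self _) (abs_nonneg _)) _
    refine h1.trans_isLittleO ?_
    have h2 := Asymptotics.isLittleO_pow_id (𝕜 := ℝ) (n := n + 1) (by omega)
    exact h2
  · have h1 : pp (n + 1) =ᶠ[𝓝 y] fun z => z ^ (n + 1) := by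
      filter_upwards [lt_mem_nhds hy] with z hz
      exact pp_pos _ hz.le
    rw [pp_pos _ hy.le]
    have h2 := hasDerivAt_pow (n + 1) y
    simp only [Nat.add_sub_cancel] at h2
    push_cast at h2
    exact h2.congr_of_eventuallyEq h1

lemma pp_cd (n : ℕ) : ContDiff ℝ n (pp (n + 1)) := by
  induction n with
  | zero =>
    have h1 : ContDiff ℝ 0 (pp 1) := contDiff_zero.2 (pp_cont 1)
    exact_mod_cast h1
  | succ n ih =>
    have hd : deriv (pp (n + 1 + 1)) = fun y => ((n + 1 : ℕ) + 1 : ℝ) * pp (n + 1) y := by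
      funext y
      exact (pp_hd (n + 1) (by omega) y).deriv
    have h1 : ContDiff ℝ ((n : WithTop ℕ∞) + 1) (pp (n + 1 + 1)) := by
      rw [contDiff_succ_iff_deriv]
      refine ⟨fun y => (pp_hd (n + 1) (by omega) y).differentiableAt, by simp, ?_⟩
      rw [hd]
      exact contDiff_const.mul ih
    exact_mod_cast h1

lemma pp_mul (n m : ℕ) (y : ℝ) : pp n y * pp m y = pp (n + m) y := by
  unfold pp
  rw [pow_add]

lemma pp_pow (n m : ℕ) (y : ℝ) : pp n y ^ m = pp (n * m) y := by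
  unfold pp
  rw [pow_mul]


/-! ### Partial derivatives -/

lemma pd_mul1 {f g : V → ℝ} (hf : Differentiable ℝ f) (hg : Differentiable ℝ g) (j : Fin 3)
    (x : V) : pd j (fun y => f y * g y) x = f x * pd j g x + pd j f x * g x := by
  unfold pd
  have h : HasFDerivAt (fun y => f y * g y) _ x := (hf x).hasFDerivAt.mul (hg x).hasFDerivAt
  rw [h.fderiv]
  simp only [add_apply, smul_apply, smul_eq_mul]
  ring

lemma pd_add1 {f g : V → ℝ} (hf : Differentiable ℝ f) (hg : Differentiable ℝ g) (j : Fin 3)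
    (x : V) : pd j (fun y => f y + g y) x = pd j f x + pd j g x := by
  unfold pd
  have h : HasFDerivAt (fun y => f y + g y) _ x := (hf x).hasFDerivAt.add (hg x).hasFDerivAt
  rw [h.fderiv]
  rfl

lemma pd_sub1 {f g : V → ℝ} (hf : Differentiable ℝ f) (hg : Differentiable ℝ g) (j : Fin 3)
    (x : V) : pd j (fun y => f y - g y) x = pd j f x - pd j g x := by
  unfold pd
  have h : HasFDerivAt (fun y => f y - g y) _ x := (hf x).hasFDerivAt.sub (hg x).hasFDerivAt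
  rw [h.fderiv]
  rfl

lemma pd_cmul1 {f : V → ℝ} (c : ℝ) (hf : Differentiable ℝ f) (j : Fin 3)
    (x : V) : pd j (fun y => c * f y) x = c * pd j f x := by
  unfold pd
  have h : HasFDerivAt (fun y => c * f y) _ x := (hf x).hasFDerivAt.const_mul c
  rw [h.fderiv]
  simp

lemma pd_crd1 (i j : Fin 3) (x : V) : pd j (fun y : V => y i) x = if i = j then 1 else 0 := by
  unfold pd
  have h : HasFDerivAt (fun y : V => y i) (ContinuousLinearMap.proj (R := ℝ) i) x :=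
    (ContinuousLinearMap.proj (R := ℝ) (φ := fun _ : Fin 3 => ℝ) i).hasFDerivAt
  rw [h.fderiv]
  simp [Pi.single_apply]

lemma pd_comp1 {g : ℝ → ℝ} {g' : ℝ} {f : V → ℝ} {x : V} (hg : HasDerivAt g g' (f x))
    (hf : DifferentiableAt ℝ f x) (j : Fin 3) : pd j (fun y => g (f y)) x = g' * pd j f x := by
  unfold pd
  have h : HasFDerivAt (fun y => g (f y)) _ x := hg.comp_hasFDerivAt x hf.hasFDerivAt
  rw [h.fderiv]
  simp

lemma pd_congr1 {f g : V → ℝ} {x : V} (h : f =ᶠ[𝓝 x] g) (j : Fin 3) : pd j f x = pd j g x := by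
  unfold pd
  rw [h.fderiv_eq]

lemma pd_cd {n : ℕ} {f : V → ℝ} (hf : ContDiff ℝ (n + 1) f) (j : Fin 3) : ContDiff ℝ n (pd j f) :=
  (hf.fderiv_right (m := n) le_rfl).clm_apply contDiff_const

lemma pd_cdi {f : V → ℝ} (hf : ContDiff ℝ ∞ f) (j : Fin 3) : ContDiff ℝ ∞ (pd j f) :=
  (hf.fderiv_right (m := ∞) (by simp)).clm_apply contDiff_const

lemma pd_sym {f : V → ℝ} (hf : ContDiff ℝ ∞ f) (i j : Fin 3) (x : V) :
    pd i (pd j f) x = pd j (pd i f) x := by
  have h2 : ContDiff ℝ 2 f := hf.of_le (by norm_cast)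
  have hs : IsSymmSndFDerivAt ℝ f x := h2.contDiffAt.isSymmSndFDerivAt (by simp)
  have hd : DifferentiableAt ℝ (fderiv ℝ f) x :=
    ((h2.fderiv_right (m := 1) (by norm_num)).differentiable one_ne_zero) x
  have e : ∀ a b : Fin 3, pd a (pd b f) x
      = fderiv ℝ (fderiv ℝ f) x (Pi.single a 1) (Pi.single b 1) := by
    intro a b
    unfold pd
    have h3 : HasFDerivAt (fun y => fderiv ℝ f y (Pi.single b 1)) _ x :=
      hd.hasFDerivAt.clm_apply (hasFDerivAt_const (Pi.single b (1 : ℝ) : V) x)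
    rw [h3.fderiv]
    simp
  rw [e, e]
  exact hs _ _

lemma int_pd1 {f : V → ℝ} (hf : ContDiff ℝ 1 f) (hs : HasCompactSupport f) (j : Fin 3) :
    Integrable (pd j f) ∧ ∫ x, pd j f x = 0 := by
  have hc : Continuous (pd j f) := (hf.continuous_fderiv (by norm_num)).clm_apply continuous_const
  have hcs : HasCompactSupport (pd j f) := hs.fderiv_apply (𝕜 := ℝ) (Pi.single j 1)
  have hi : Integrable (pd j f) := hc.integrable_of_hasCompactSupport hcs
  refine ⟨hi, ?_⟩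
  have h := integral_mul_fderiv_eq_neg_fderiv_mul_of_integrable (μ := (volume : Measure V))
    (f := fun _ : V => (1 : ℝ)) (g := f) (v := (Pi.single j 1 : V)) ?_ ?_ ?_ ?_ ?_
  · simp only [one_mul, fderiv_fun_const, Pi.zero_apply, zero_apply,
      zero_mul, integral_zero, neg_zero] at h
    exact h
  · simp only [fderiv_fun_const, Pi.zero_apply, zero_apply, zero_mul]
    exact integrable_zero _ _ _
  · simp only [one_mul]
    exact hi
  · simp only [one_mul]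
    exact hf.continuous.integrable_of_hasCompactSupport hs
  · exact fun x _ => differentiableAt_const 1
  · exact fun x _ => (hf.differentiable one_ne_zero) x

/-! ### The barrier -/

/-- the barrier -/
noncomputable def kap (t : ℝ) (x : V) : ℝ := 1 / 8 + 16 * sg x ^ 2 + 16 * x 2 ^ 4 + t ^ 2

/-- the compact set containing the supports -/
def K0 : Set V := {x | 16 * sg x ^ 2 + 16 * x 2 ^ 4 ≤ 7 / 8}

lemma sg_cont : Continuous sg := by unfold sg; fun_prop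

lemma sg_cd : ContDiff ℝ ∞ sg := by unfold sg; fun_prop

lemma kap_cd (t : ℝ) : ContDiff ℝ ∞ (kap t) := by unfold kap sg; fun_prop

lemma K0_sg {x : V} (hx : x ∈ K0) : sg x ≤ 1 / 4 ∧ x 2 ^ 2 ≤ 1 / 4 := by
  have h1 : 16 * sg x ^ 2 + 16 * x 2 ^ 4 ≤ 7 / 8 := hx
  have h2 : 0 ≤ sg x := by unfold sg; positivity
  constructor
  · by_contra hc
    push Not at hc
    nlinarith [sq_nonneg (x 2 ^ 2)]
  · by_contra hc
    push Not at hc
    nlinarith [sq_nonneg (sg x)]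

lemma K0_compact : IsCompact K0 := by
  have h1 : IsClosed K0 := by
    unfold K0 sg
    exact isClosed_le (by fun_prop) continuous_const
  refine (isCompact_closedBall (0 : V) 1).of_isClosed_subset h1 fun x hx => ?_
  rw [mem_closedBall_zero_iff, pi_norm_le_iff_of_nonneg zero_le_one]
  obtain ⟨h2, h3⟩ := K0_sg hx
  unfold sg at h2
  intro i
  rw [Real.norm_eq_abs]
  refine abs_le_of_sq_le_sq ?_ zero_le_one
  fin_cases i
  · show x 0 ^ 2 ≤ 1 ^ 2
    nlinarith [sq_nonneg (x 1)]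
  · show x 1 ^ 2 ≤ 1 ^ 2
    nlinarith [sq_nonneg (x 0)]
  · show x 2 ^ 2 ≤ 1 ^ 2
    nlinarith

lemma pd_sg (j : Fin 3) (x : V) : pd j sg x = if j = 2 then 0 else 2 * x j := by
  have e : sg = fun y : V => y 0 * y 0 + y 1 * y 1 := by
    funext y
    unfold sg
    ring
  have d : ∀ i : Fin 3, Differentiable ℝ fun y : V => y i := fun i => by fun_prop
  have e0 : Differentiable ℝ fun y : V => y 0 * y 0 := by fun_prop
  have e1 : Differentiable ℝ fun y : V => y 1 * y 1 := by fun_prop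
  rw [e, pd_add1 e0 e1, pd_mul1 (d 0) (d 0), pd_mul1 (d 1) (d 1), pd_crd1, pd_crd1]
  fin_cases j <;> simp <;> ring

lemma pd_kap (t : ℝ) (j : Fin 3) (x : V) :
    pd j (kap t) x = if j = 2 then 64 * x 2 ^ 3 else 64 * sg x * x j := by
  have e : kap t = fun y : V => (1 / 8 + t ^ 2) + (16 * (sg y * sg y)
      + 16 * ((y 2 * y 2) * (y 2 * y 2))) := by
    funext y
    unfold kap
    ring
  have d : ∀ i : Fin 3, Differentiable ℝ fun y : V => y i := fun i => by fun_prop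
  have ds : Differentiable ℝ sg := sg_cd.differentiable (by simp)
  have c1 : pd j (fun _ : V => (1 / 8 + t ^ 2 : ℝ)) x = 0 := by
    unfold pd
    simp
  have dss : Differentiable ℝ fun y : V => sg y * sg y := ds.mul ds
  have dz2 : Differentiable ℝ fun y : V => y 2 * y 2 := (d 2).mul (d 2)
  have dz4 : Differentiable ℝ fun y : V => (y 2 * y 2) * (y 2 * y 2) := dz2.mul dz2
  have f1 : Differentiable ℝ fun y : V => 16 * (sg y * sg y) := dss.const_mul 16
  have f2 : Differentiable ℝ fun y : V => 16 * ((y 2 * y 2) * (y 2 * y 2)) := dz4.const_mul 16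
  have f3 : Differentiable ℝ fun y : V => 16 * (sg y * sg y)
    + 16 * ((y 2 * y 2) * (y 2 * y 2)) := f1.add f2
  have f4 : Differentiable ℝ fun _ : V => (1 / 8 + t ^ 2 : ℝ) := differentiable_const _
  rw [e, pd_add1 f4 f3, pd_add1 f1 f2, pd_cmul1 16 dss, pd_cmul1 16 dz4,
    pd_mul1 ds ds, pd_mul1 dz2 dz2, pd_mul1 (d 2) (d 2), pd_crd1, pd_sg, c1]
  fin_cases j <;> simp <;> ring


/-! ### Functions with integral zero -/

/-- integrable with integral zero -/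
def ZI (f : V → ℝ) : Prop := Integrable f ∧ ∫ x, f x = 0

lemma ZI.add {f g : V → ℝ} (hf : ZI f) (hg : ZI g) : ZI fun x => f x + g x :=
  ⟨hf.1.add hg.1, by rw [integral_add hf.1 hg.1, hf.2, hg.2, add_zero]⟩

lemma ZI.sub {f g : V → ℝ} (hf : ZI f) (hg : ZI g) : ZI fun x => f x - g x :=
  ⟨hf.1.sub hg.1, by rw [integral_sub hf.1 hg.1, hf.2, hg.2, sub_zero]⟩

lemma ZI.cmul {f : V → ℝ} (c : ℝ) (hf : ZI f) : ZI fun x => c * f x :=
  ⟨hf.1.const_mul c, by rw [integral_const_mul, hf.2, mul_zero]⟩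

lemma ZI.congr {f g : V → ℝ} (hf : ZI f) (h : ∀ x, f x = g x) : ZI g := by
  have e : f = g := funext h
  rwa [← e]

lemma RR_mul1 {f g : V → ℝ} (hf : Differentiable ℝ f) (hg : Differentiable ℝ g) (x : V) :
    RR (fun y => f y * g y) x = f x * RR g x + RR f x * g x := by
  unfold RR
  rw [pd_mul1 hf hg, pd_mul1 hf hg]
  ring

lemma cs_crd {u : V → ℝ} (hc : HasCompactSupport u) (i : Fin 3) :
    HasCompactSupport fun x : V => x i * u x := hc.mul_left

lemma zi_RR {u : V → ℝ} (hu : ContDiff ℝ 1 u) (hc : HasCompactSupport u) :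
    ZI fun x => 2 * u x + RR u x := by
  have du : Differentiable ℝ u := hu.differentiable one_ne_zero
  have d : ∀ i : Fin 3, Differentiable ℝ fun y : V => y i := fun i => by fun_prop
  have hs : ∀ i : Fin 3, ContDiff ℝ 1 fun x : V => x i * u x := fun i => by fun_prop
  have z0 : ZI (pd 0 fun x : V => x 0 * u x) := int_pd1 (hs 0) (cs_crd hc 0) 0
  have z1 : ZI (pd 1 fun x : V => x 1 * u x) := int_pd1 (hs 1) (cs_crd hc 1) 1
  refine (z0.add z1).congr fun x => ?_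
  rw [pd_mul1 (d 0) du, pd_mul1 (d 1) du, pd_crd1, pd_crd1]
  unfold RR
  simp
  ring

section fixed

variable {w ψ : V → ℝ} {t l : ℝ}

/-- the excess over the barrier -/
noncomputable def SS (w : V → ℝ) (t l : ℝ) (x : V) : ℝ := w x - kap t x - l

lemma SS_cd (hw : ContDiff ℝ ∞ w) : ContDiff ℝ ∞ (SS w t l) := by
  unfold SS
  exact (hw.sub (kap_cd t)).sub contDiff_const

lemma sg_nn (x : V) : 0 ≤ sg x := by unfold sg; positivity

lemma SS_K0 (h1 : ∀ x, w x ≤ 1) (hl : 0 ≤ l) {x : V} (hx : 0 ≤ SS w t l x) : x ∈ K0 := by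
  have h2 := h1 x
  unfold SS kap at hx
  show 16 * sg x ^ 2 + 16 * x 2 ^ 4 ≤ 7 / 8
  nlinarith [sq_nonneg t]

lemma SS_ax (hax : ∀ x, sg x = 0 → w x ≤ 0) (hl : 0 ≤ l) {x : V} (hx : sg x = 0) :
    SS w t l x < 0 := by
  have h2 := hax x hx
  unfold SS kap
  have h3 : 0 ≤ x 2 ^ 4 := by positivity
  nlinarith [sq_nonneg t, sq_nonneg (sg x)]

lemma SS_pd (hw : ContDiff ℝ ∞ w) (j : Fin 3) (x : V) :
    pd j w x = pd j (SS w t l) x + pd j (kap t) x := by
  have e : w = fun y => SS w t l y + kap t y + l := by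
    funext y
    unfold SS
    ring
  have d1 : Differentiable ℝ (SS w t l) := (SS_cd hw).differentiable (by simp)
  have d2 : Differentiable ℝ (kap t) := (kap_cd t).differentiable (by simp)
  have d3 : Differentiable ℝ fun y => SS w t l y + kap t y := d1.add d2
  conv_lhs => rw [e]
  rw [pd_add1 d3 (differentiable_const l), pd_add1 d1 d2]
  have c1 : pd j (fun _ : V => l) x = 0 := by
    unfold pd
    simp
  rw [c1, add_zero]

lemma lap_kap (t : ℝ) (x : V) : lap (kap t) x = 256 * sg x + 192 * x 2 ^ 2 := by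
  have e0 : pd 0 (kap t) = fun y => 64 * (sg y * y 0) := by
    funext y
    rw [pd_kap]
    simp
    ring
  have e1 : pd 1 (kap t) = fun y => 64 * (sg y * y 1) := by
    funext y
    rw [pd_kap]
    simp
    ring
  have e2 : pd 2 (kap t) = fun y => 64 * (y 2 * (y 2 * y 2)) := by
    funext y
    rw [pd_kap]
    simp
    ring
  have d : ∀ i : Fin 3, Differentiable ℝ fun y : V => y i := fun i => by fun_prop
  have ds : Differentiable ℝ sg := sg_cd.differentiable (by simp)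
  have f0 : Differentiable ℝ fun y : V => sg y * y 0 := ds.mul (d 0)
  have f1 : Differentiable ℝ fun y : V => sg y * y 1 := ds.mul (d 1)
  have f2 : Differentiable ℝ fun y : V => y 2 * y 2 := (d 2).mul (d 2)
  have f3 : Differentiable ℝ fun y : V => y 2 * (y 2 * y 2) := (d 2).mul f2
  unfold lap
  rw [Fin.sum_univ_three, e0, e1, e2, pd_cmul1 64 f0, pd_cmul1 64 f1, pd_cmul1 64 f3,
    pd_mul1 ds (d 0), pd_mul1 ds (d 1), pd_mul1 (d 2) f2, pd_mul1 (d 2) (d 2), pd_crd1, pd_crd1,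
    pd_crd1, pd_sg, pd_sg]
  simp
  unfold sg
  ring

lemma SS_lap (hw : ContDiff ℝ ∞ w) (x : V) :
    lap w x = lap (SS w t l) x + lap (kap t) x := by
  unfold lap
  rw [← Finset.sum_add_distrib]
  refine Finset.sum_congr rfl fun j _ => ?_
  have e : pd j w = fun y => pd j (SS w t l) y + pd j (kap t) y :=
    funext fun y => SS_pd hw j y
  have d1 : Differentiable ℝ (pd j (SS w t l)) := (pd_cdi (SS_cd hw) j).differentiable (by simp)
  have d2 : Differentiable ℝ (pd j (kap t)) := (pd_cdi (kap_cd t) j).differentiable (by simp)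
  rw [e, pd_add1 d1 d2]

lemma RR_kap (x : V) : RR (kap t) x = 64 * sg x ^ 2 := by
  unfold RR
  rw [pd_kap, pd_kap]
  simp
  unfold sg
  ring

lemma SS_RR (hw : ContDiff ℝ ∞ w) (x : V) :
    RR w x = RR (SS w t l) x + 64 * sg x ^ 2 := by
  rw [← RR_kap (t := t)]
  unfold RR
  rw [SS_pd (t := t) (l := l) hw, SS_pd (t := t) (l := l) hw 1]
  ring

lemma ppS_cs (h1 : ∀ x, w x ≤ 1) (hl : 0 ≤ l) {n : ℕ} (hn : n ≠ 0) :
    HasCompactSupport fun x => pp n (SS w t l x) := by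
  refine HasCompactSupport.intro K0_compact fun x hx => pp_zero hn ?_
  by_contra hc
  push Not at hc
  exact hx (SS_K0 h1 hl hc.le)

lemma ppS_cd (hw : ContDiff ℝ ∞ w) (n : ℕ) : ContDiff ℝ n fun x => pp (n + 1) (SS w t l x) :=
  (pp_cd n).comp ((SS_cd hw).of_le (by exact_mod_cast le_top))

lemma ppS_pd (hw : ContDiff ℝ ∞ w) {n : ℕ} (hn : n ≠ 0) (j : Fin 3) (x : V) :
    pd j (fun y => pp (n + 1) (SS w t l y)) x
      = (n + 1) * pp n (SS w t l x) * pd j (SS w t l) x :=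
  pd_comp1 (pp_hd n hn _) ((SS_cd hw).differentiable (by simp) x) j

end fixed


lemma quad_aux {S0 S1 S2 a0 a1 z q g X : ℝ} (hg0 : 0 ≤ g) (hsg : g = a0 ^ 2 + a1 ^ 2)
    (k1 : g ≤ 1 / 4) (k2 : z ^ 2 ≤ 1 / 4) (hX0 : 0 ≤ X) :
    1920 * X * q * (-(S2 * g ^ 2) + (a0 * S0 + a1 * S1) * z ^ 3)
      ≤ X * (S0 ^ 2 + S1 ^ 2 + S2 ^ 2) + 28800 * (q ^ 2 * g * X) := by
  have e0 : 1920 * q * (a0 * S0 * z ^ 3) ≤ S0 ^ 2 + 921600 * (q ^ 2 * a0 ^ 2 * z ^ 6) := by
    have := sq_nonneg (S0 - 960 * q * a0 * z ^ 3)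
    ring_nf at this ⊢
    linarith
  have e1 : 1920 * q * (a1 * S1 * z ^ 3) ≤ S1 ^ 2 + 921600 * (q ^ 2 * a1 ^ 2 * z ^ 6) := by
    have := sq_nonneg (S1 - 960 * q * a1 * z ^ 3)
    ring_nf at this ⊢
    linarith
  have e2 : -(1920 * q * (S2 * g ^ 2)) ≤ S2 ^ 2 + 921600 * (q ^ 2 * g ^ 4) := by
    have := sq_nonneg (S2 + 960 * q * g ^ 2)
    ring_nf at this ⊢
    linarith
  have e3 : z ^ 6 ≤ 1 / 64 := by
    have h1 : (z ^ 2) ^ 3 ≤ (1 / 4) ^ 3 := pow_le_pow_left₀ (sq_nonneg z) k2 3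
    have h2 : (z ^ 2) ^ 3 = z ^ 6 := by ring
    rw [h2] at h1
    norm_num at h1
    exact h1
  have e4 : g ^ 3 ≤ 1 / 64 := by
    have h1 : g ^ 3 ≤ (1 / 4) ^ 3 := pow_le_pow_left₀ hg0 k1 3
    norm_num at h1
    exact h1
  have e5 : q ^ 2 * a0 ^ 2 * z ^ 6 + q ^ 2 * a1 ^ 2 * z ^ 6 ≤ q ^ 2 * g * (1 / 64) := by
    have : q ^ 2 * a0 ^ 2 * z ^ 6 + q ^ 2 * a1 ^ 2 * z ^ 6 = q ^ 2 * g * z ^ 6 := by
      rw [hsg]; ring
    rw [this]
    exact mul_le_mul_of_nonneg_left e3 (by positivity)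
  have e6 : q ^ 2 * g ^ 4 ≤ q ^ 2 * g * (1 / 64) := by
    have : q ^ 2 * g ^ 4 = q ^ 2 * g * g ^ 3 := by ring
    rw [this]
    exact mul_le_mul_of_nonneg_left e4 (by positivity)
  have e7 : 1920 * q * (-(S2 * g ^ 2) + (a0 * S0 + a1 * S1) * z ^ 3)
      ≤ (S0 ^ 2 + S1 ^ 2 + S2 ^ 2) + 28800 * (q ^ 2 * g) := by
    have h1 : 1920 * q * (-(S2 * g ^ 2) + (a0 * S0 + a1 * S1) * z ^ 3)
        = -(1920 * q * (S2 * g ^ 2)) + 1920 * q * (a0 * S0 * z ^ 3)
          + 1920 * q * (a1 * S1 * z ^ 3) := by ring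
    rw [h1]
    linarith
  calc 1920 * X * q * (-(S2 * g ^ 2) + (a0 * S0 + a1 * S1) * z ^ 3)
      = X * (1920 * q * (-(S2 * g ^ 2) + (a0 * S0 + a1 * S1) * z ^ 3)) := by ring
    _ ≤ X * ((S0 ^ 2 + S1 ^ 2 + S2 ^ 2) + 28800 * (q ^ 2 * g)) :=
      mul_le_mul_of_nonneg_left e7 hX0
    _ = _ := by ring

lemma key_aux {S0 S1 S2 a0 a1 z q g X P Lp p2 b t : ℝ} (hs0 : 0 < g)
    (hsg : g = a0 ^ 2 + a1 ^ 2) (k1 : g ≤ 1 / 4) (k2 : z ^ 2 ≤ 1 / 4) (hX0 : 0 ≤ X)
    (hP0 : 0 ≤ P) (ht1 : -1 < t) :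
    6 * P * (Lp + (256 * g + 192 * z ^ 2) - 2 / g * (a0 * S0 + a1 * S1 + 64 * g ^ 2)
        + p2 * (a0 * S0 + a1 * S1 + 64 * g ^ 2) - b * (S2 + 64 * z ^ 3) - 2 * t)
      ≤ 30 * X * (S0 ^ 2 + S1 ^ 2 + S2 ^ 2) + 6 * P * Lp - 2 * (6 * P * (a0 * S0 + a1 * S1) / g)
        + 6 * P * (p2 * (a0 * S0 + a1 * S1) - b * S2)
        + (384 * P * (p2 * g ^ 2 - b * z ^ 3)
          + 1920 * X * q * (S2 * g ^ 2 - (a0 * S0 + a1 * S1) * z ^ 3))
        + (-(29 * (X * (S0 ^ 2 + S1 ^ 2 + S2 ^ 2))) + 28800 * (q ^ 2 * g * X) + 684 * P) := by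
  have hQ := quad_aux (S0 := S0) (S1 := S1) (S2 := S2) (q := q) hs0.le hsg k1 k2 hX0
  have hT : P * (768 * g + 1152 * z ^ 2 - 12 * t) ≤ P * 684 :=
    mul_le_mul_of_nonneg_left (by linarith) hP0
  have e8 : 6 * P * (Lp + (256 * g + 192 * z ^ 2) - 2 / g * (a0 * S0 + a1 * S1 + 64 * g ^ 2)
        + p2 * (a0 * S0 + a1 * S1 + 64 * g ^ 2) - b * (S2 + 64 * z ^ 3) - 2 * t)
      = 6 * P * Lp - 2 * (6 * P * (a0 * S0 + a1 * S1) / g)
        + 6 * P * (p2 * (a0 * S0 + a1 * S1) - b * S2)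
        + 384 * P * (p2 * g ^ 2 - b * z ^ 3)
        + P * (768 * g + 1152 * z ^ 2 - 12 * t) := by
    field_simp
    ring
  rw [e8]
  have e9 : 1920 * X * q * (S2 * g ^ 2 - (a0 * S0 + a1 * S1) * z ^ 3)
      = -(1920 * X * q * (-(S2 * g ^ 2) + (a0 * S0 + a1 * S1) * z ^ 3)) := by ring
  rw [e9]
  linarith

section fixed2

variable {w ψ : V → ℝ} {t l : ℝ}

lemma za (hw : ContDiff ℝ ∞ w) (h1 : ∀ x, w x ≤ 1) (hl : 0 ≤ l) :
    ZI fun x => 30 * pp 4 (SS w t l x) * gr2 (SS w t l) x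
      + 6 * pp 5 (SS w t l x) * lap (SS w t l) x := by
  obtain ⟨S, hS⟩ : ∃ S, S = SS w t l := ⟨_, rfl⟩
  have hSd : ContDiff ℝ ∞ S := by rw [hS]; exact SS_cd hw
  have dp : Differentiable ℝ fun x => pp 5 (S x) := by
    rw [hS]
    exact (ppS_cd hw 4).differentiable (by norm_num)
  have hz : ∀ j : Fin 3, ZI fun x => 30 * pp 4 (S x) * pd j S x ^ 2
      + 6 * pp 5 (S x) * pd j (pd j S) x := by
    intro j
    have c1 : ContDiff ℝ 1 fun x => pp 5 (S x) * pd j S x := by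
      have c2 : ContDiff ℝ 1 fun x => pp 5 (S x) := by
        rw [hS]
        exact (ppS_cd hw 4).of_le (by norm_num)
      exact c2.mul ((pd_cdi hSd j).of_le (by norm_cast))
    have c3 : HasCompactSupport fun x => pp 5 (S x) * pd j S x := by
      rw [hS]
      exact (ppS_cs h1 hl (by norm_num)).mul_right
    have z1 : ZI (pd j fun x => pp 5 (S x) * pd j S x) := int_pd1 c1 c3 j
    refine (z1.cmul 6).congr fun x => ?_
    have d2 : Differentiable ℝ (pd j S) := (pd_cdi hSd j).differentiable (by simp)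
    rw [pd_mul1 dp d2]
    have e1 : pd j (fun x => pp 5 (S x)) x = (4 + 1) * pp 4 (S x) * pd j S x := by
      rw [hS]
      exact_mod_cast ppS_pd (t := t) (l := l) hw (n := 4) (by norm_num) j x
    rw [e1]
    ring
  rw [← hS]
  refine (((hz 0).add (hz 1)).add (hz 2)).congr fun x => ?_
  unfold gr2 lap
  rw [Fin.sum_univ_three, Fin.sum_univ_three]
  ring

/-- `pp 6 S / sg` is of class `C¹` -/
lemma quo_cd (hw : ContDiff ℝ ∞ w) (hax : ∀ x, sg x = 0 → w x ≤ 0) (hl : 0 ≤ l) :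
    ContDiff ℝ 1 fun x => pp 6 (SS w t l x) / sg x := by
  rw [contDiff_iff_contDiffAt]
  intro x
  by_cases hx : sg x = 0
  · have h2 : SS w t l x < 0 := SS_ax hax hl hx
    have h3 : ∀ᶠ y in 𝓝 x, SS w t l y < 0 :=
      (SS_cd (t := t) (l := l) hw).continuous.continuousAt.eventually_lt continuousAt_const h2
    have h4 : (fun x => pp 6 (SS w t l x) / sg x) =ᶠ[𝓝 x] fun _ => 0 := by
      filter_upwards [h3] with y hy
      rw [pp_zero (by norm_num) hy.le, zero_div]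
    exact contDiffAt_const.congr_of_eventuallyEq h4
  · have c2 : ContDiff ℝ 1 fun x => pp 6 (SS w t l x) := (ppS_cd hw 5).of_le (by norm_num)
    exact c2.contDiffAt.div ((sg_cd.of_le (by norm_cast)).contDiffAt) hx

lemma zb (hw : ContDiff ℝ ∞ w) (h1 : ∀ x, w x ≤ 1) (hax : ∀ x, sg x = 0 → w x ≤ 0)
    (hl : 0 ≤ l) :
    ZI fun x => 6 * pp 5 (SS w t l x) * RR (SS w t l) x / sg x := by
  obtain ⟨u, hu⟩ : ∃ u : V → ℝ, u = fun x => pp 6 (SS w t l x) / sg x := ⟨_, rfl⟩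
  have hu1 : ContDiff ℝ 1 u := by rw [hu]; exact quo_cd hw hax hl
  have hu2 : HasCompactSupport u := by
    have h2 : HasCompactSupport fun x => pp 6 (SS w t l x) * (sg x)⁻¹ :=
      (ppS_cs h1 hl (by norm_num)).mul_right
    rw [hu]
    simpa [div_eq_mul_inv] using h2
  refine (zi_RR hu1 hu2).congr fun x => ?_
  have du : Differentiable ℝ u := hu1.differentiable one_ne_zero
  have ds : Differentiable ℝ sg := sg_cd.differentiable (by simp)
  by_cases hx : sg x = 0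
  · have h2 : SS w t l x < 0 := SS_ax hax hl hx
    have h3 : ∀ᶠ y in 𝓝 x, SS w t l y < 0 :=
      (SS_cd (t := t) (l := l) hw).continuous.continuousAt.eventually_lt continuousAt_const h2
    have h4 : u =ᶠ[𝓝 x] fun _ => 0 := by
      filter_upwards [h3] with y hy
      rw [hu]
      beta_reduce
      rw [pp_zero (by norm_num) hy.le, zero_div]
    have h5 : ∀ j, pd j u x = 0 := by
      intro j
      rw [pd_congr1 h4]
      unfold pd
      simp
    unfold RR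
    rw [h5, h5, h4.self_of_nhds, hx]
    simp
  · have e1 : (fun y => sg y * u y) = fun y => pp 6 (SS w t l y) := by
      funext y
      rw [hu]
      beta_reduce
      by_cases hy : sg y = 0
      · rw [hy, pp_zero (by norm_num) (SS_ax hax hl hy).le]
        simp
      · field_simp
    have e2 : ∀ j, pd j (fun y => sg y * u y) x
        = (5 + 1) * pp 5 (SS w t l x) * pd j (SS w t l) x := by
      intro j
      rw [e1]
      exact_mod_cast ppS_pd (t := t) (l := l) hw (n := 5) (by norm_num) j x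
    have e3 : RR (fun y => sg y * u y) x = sg x * (2 * u x + RR u x) := by
      rw [RR_mul1 ds du]
      have e4 : RR sg x = 2 * sg x := by
        unfold RR
        rw [pd_sg, pd_sg]
        simp
        unfold sg
        ring
      rw [e4]
      ring
    have e5 : RR (fun y => sg y * u y) x
        = 6 * pp 5 (SS w t l x) * RR (SS w t l) x := by
      unfold RR
      rw [e2, e2]
      ring
    rw [← e5, e3]
    field_simp

lemma zc (hw : ContDiff ℝ ∞ w) (hψ : ContDiff ℝ ∞ ψ) (h1 : ∀ x, w x ≤ 1) (hl : 0 ≤ l) :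
    ZI fun x => 6 * pp 5 (SS w t l x) * (pd 2 ψ x * RR (SS w t l) x
      - (2 * ψ x + RR ψ x) * pd 2 (SS w t l) x) := by
  obtain ⟨F, hF⟩ : ∃ F : V → ℝ, F = fun x => pp 6 (SS w t l x) := ⟨_, rfl⟩
  have hF1 : ContDiff ℝ 1 F := by rw [hF]; exact (ppS_cd hw 5).of_le (by norm_num)
  have hF2 : HasCompactSupport F := by rw [hF]; exact ppS_cs h1 hl (by norm_num)
  have hFp : ∀ j x, pd j F x = 6 * pp 5 (SS w t l x) * pd j (SS w t l) x := by
    intro j x
    have h2 := ppS_pd (t := t) (l := l) hw (n := 5) (by norm_num) j x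
    rw [hF, h2]
    norm_num
  have dF : Differentiable ℝ F := hF1.differentiable one_ne_zero
  have hp2 : ContDiff ℝ ∞ (pd 2 ψ) := pd_cdi hψ 2
  have dp2 : Differentiable ℝ (pd 2 ψ) := hp2.differentiable (by simp)
  have dψ : Differentiable ℝ ψ := hψ.differentiable (by simp)
  have hRR : ContDiff ℝ ∞ (RR ψ) := by
    unfold RR
    have c0 := pd_cdi hψ 0
    have c1 := pd_cdi hψ 1
    fun_prop
  have hb : ContDiff ℝ ∞ fun x => 2 * ψ x + RR ψ x := (contDiff_const.mul hψ).add hRR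
  have db : Differentiable ℝ fun x => 2 * ψ x + RR ψ x := hb.differentiable (by simp)
  have i1 : (1 : WithTop ℕ∞) ≤ ∞ := by norm_cast
  have z1 : ZI fun x => 2 * (pd 2 ψ x * F x) + RR (fun y => pd 2 ψ y * F y) x :=
    zi_RR ((hp2.of_le i1).mul hF1) hF2.mul_left
  have z2 : ZI (pd 2 fun x => (2 * ψ x + RR ψ x) * F x) :=
    int_pd1 ((hb.of_le i1).mul hF1) hF2.mul_left 2
  refine (z1.sub z2).congr fun x => ?_
  rw [RR_mul1 dp2 dF, pd_mul1 db dF]
  have d2ψ : Differentiable ℝ fun x => 2 * ψ x := dψ.const_mul 2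
  have dRR : Differentiable ℝ (RR ψ) := hRR.differentiable (by simp)
  have e1 : pd 2 (fun x => 2 * ψ x + RR ψ x) x = 2 * pd 2 ψ x + RR (pd 2 ψ) x := by
    rw [pd_add1 d2ψ dRR, pd_cmul1 2 dψ]
    congr 1
    have d0 : Differentiable ℝ (pd 0 ψ) := (pd_cdi hψ 0).differentiable (by simp)
    have d1 : Differentiable ℝ (pd 1 ψ) := (pd_cdi hψ 1).differentiable (by simp)
    have d : ∀ i : Fin 3, Differentiable ℝ fun y : V => y i := fun i => by fun_prop
    have f0 : Differentiable ℝ fun y : V => y 0 * pd 0 ψ y := (d 0).mul d0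
    have f1 : Differentiable ℝ fun y : V => y 1 * pd 1 ψ y := (d 1).mul d1
    have e2 : pd 2 (RR ψ) x = pd 2 (fun y : V => y 0 * pd 0 ψ y + y 1 * pd 1 ψ y) x := rfl
    rw [e2, pd_add1 f0 f1, pd_mul1 (d 0) d0, pd_mul1 (d 1) d1, pd_crd1, pd_crd1]
    unfold RR
    rw [pd_sym hψ 2 0, pd_sym hψ 2 1]
    simp
  rw [e1, hFp]
  have e3 : RR F x = 6 * pp 5 (SS w t l x) * RR (SS w t l) x := by
    unfold RR
    rw [hFp, hFp]
    ring
  rw [e3]
  ring

lemma zd (hw : ContDiff ℝ ∞ w) (hψ : ContDiff ℝ ∞ ψ) (h1 : ∀ x, w x ≤ 1) (hl : 0 ≤ l) :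
    ZI fun x => 384 * pp 5 (SS w t l x) * (pd 2 ψ x * sg x ^ 2 - (2 * ψ x + RR ψ x) * x 2 ^ 3)
      + 1920 * pp 4 (SS w t l x) * ψ x * (pd 2 (SS w t l) x * sg x ^ 2
        - RR (SS w t l) x * x 2 ^ 3) := by
  obtain ⟨F, hF⟩ : ∃ F : V → ℝ, F = fun x => pp 5 (SS w t l x) := ⟨_, rfl⟩
  have hF1 : ContDiff ℝ 1 F := by rw [hF]; exact (ppS_cd hw 4).of_le (by norm_num)
  have hF2 : HasCompactSupport F := by rw [hF]; exact ppS_cs h1 hl (by norm_num)
  have hFp : ∀ j x, pd j F x = 5 * pp 4 (SS w t l x) * pd j (SS w t l) x := by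
    intro j x
    have h2 := ppS_pd (t := t) (l := l) hw (n := 4) (by norm_num) j x
    rw [hF, h2]
    norm_num
  have dF : Differentiable ℝ F := hF1.differentiable one_ne_zero
  have dψ : Differentiable ℝ ψ := hψ.differentiable (by simp)
  have i1 : (1 : WithTop ℕ∞) ≤ ∞ := by norm_cast
  have ds : Differentiable ℝ sg := sg_cd.differentiable (by simp)
  have d : ∀ i : Fin 3, Differentiable ℝ fun y : V => y i := fun i => by fun_prop
  have dss : Differentiable ℝ fun y => sg y * sg y := ds.mul ds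
  have dzz : Differentiable ℝ fun y : V => y 2 * y 2 := (d 2).mul (d 2)
  have dzzz : Differentiable ℝ fun y : V => y 2 * (y 2 * y 2) := (d 2).mul dzz
  have css : ContDiff ℝ ∞ fun y => sg y * sg y := sg_cd.mul sg_cd
  have czzz : ContDiff ℝ ∞ fun y : V => y 2 * (y 2 * y 2) := by fun_prop
  have dψs : Differentiable ℝ fun y => ψ y * (sg y * sg y) := dψ.mul dss
  have dψz : Differentiable ℝ fun y : V => ψ y * (y 2 * (y 2 * y 2)) := dψ.mul dzzz
  have z1 : ZI (pd 2 fun x => (ψ x * (sg x * sg x)) * F x) :=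
    int_pd1 (((hψ.mul css).of_le i1).mul hF1) hF2.mul_left 2
  have z2 : ZI fun x => 2 * ((ψ x * (x 2 * (x 2 * x 2))) * F x)
      + RR (fun x => (ψ x * (x 2 * (x 2 * x 2))) * F x) x :=
    zi_RR (((hψ.mul czzz).of_le i1).mul hF1) hF2.mul_left
  refine ((z1.sub z2).cmul 384).congr fun x => ?_
  rw [pd_mul1 dψs dF, pd_mul1 dψ dss, pd_mul1 ds ds, pd_sg, RR_mul1 dψz dF, RR_mul1 dψ dzzz, hFp]
  have e1 : RR (fun y : V => y 2 * (y 2 * y 2)) x = 0 := by
    unfold RR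
    rw [pd_mul1 (d 2) dzz, pd_mul1 (d 2) (d 2), pd_mul1 (d 2) dzz, pd_mul1 (d 2) (d 2),
      pd_crd1, pd_crd1]
    simp
  have e3 : RR F x = 5 * pp 4 (SS w t l x) * RR (SS w t l) x := by
    unfold RR
    rw [hFp, hFp]
    ring
  have e4 : F x = pp 5 (SS w t l x) := by rw [hF]
  rw [e1, e3, e4]
  simp
  ring

/-- The estimate at one time. -/
theorem fixed (hw : ContDiff ℝ ∞ w) (hψ : ContDiff ℝ ∞ ψ) (h1 : ∀ x, w x ≤ 1)
    (hax : ∀ x, sg x = 0 → w x ≤ 0) (hl : 0 ≤ l) (ht : t ∈ Ioo (-1 : ℝ) 0) {wt : V → ℝ}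
    (hwt : Continuous wt)
    (heq : ∀ x ∈ K0, sg x ≠ 0 → wt x = lap w x - 2 / sg x * RR w x + pd 2 ψ x * RR w x
      - (2 * ψ x + RR ψ x) * pd 2 w x) :
    ∫ x, 6 * pp 5 (SS w t l x) * (wt x - 2 * t)
      ≤ ∫ x, (-(29 * (pp 4 (SS w t l x) * gr2 (SS w t l) x))
        + 28800 * (ψ x ^ 2 * sg x * pp 4 (SS w t l x)) + 684 * pp 5 (SS w t l x)) := by
  have hz := (((za (t := t) hw h1 hl).sub ((zb (t := t) hw h1 hax hl).cmul 2)).add
    (zc (t := t) hw hψ h1 hl)).add (zd (t := t) hw hψ h1 hl)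
  obtain ⟨N, hN⟩ : ∃ N : V → ℝ, N = fun x =>
    30 * pp 4 (SS w t l x) * gr2 (SS w t l) x + 6 * pp 5 (SS w t l x) * lap (SS w t l) x -
            2 * (6 * pp 5 (SS w t l x) * RR (SS w t l) x / sg x) +
          6 * pp 5 (SS w t l x) * (pd 2 ψ x * RR (SS w t l) x - (2 * ψ x + RR ψ x) * pd 2 (SS w t l) x) +
        (384 * pp 5 (SS w t l x) * (pd 2 ψ x * sg x ^ 2 - (2 * ψ x + RR ψ x) * x 2 ^ 3) +
          1920 * pp 4 (SS w t l x) * ψ x * (pd 2 (SS w t l) x * sg x ^ 2 - RR (SS w t l) x * x 2 ^ 3)) :=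
    ⟨_, rfl⟩
  have hNz : ZI N := by rw [hN]; exact hz
  obtain ⟨B, hB⟩ : ∃ B : V → ℝ, B = fun x => (-(29 * (pp 4 (SS w t l x) * gr2 (SS w t l) x))
        + 28800 * (ψ x ^ 2 * sg x * pp 4 (SS w t l x)) + 684 * pp 5 (SS w t l x)) := ⟨_, rfl⟩
  have hSc : Continuous (SS w t l) := (SS_cd hw).continuous
  have hpp : ∀ n, Continuous fun x => pp n (SS w t l x) := fun n => (pp_cont n).comp hSc
  have hgc : Continuous (gr2 (SS w t l)) := by
    unfold gr2
    exact continuous_finsetSum _ fun j _ => ((pd_cdi (SS_cd hw) j).continuous.pow 2)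
  have hBi : Integrable B := by
    rw [hB]
    refine Continuous.integrable_of_hasCompactSupport ?_ ?_
    · exact ((continuous_const.mul ((hpp 4).mul hgc)).neg.add
        (continuous_const.mul (((hψ.continuous.pow 2).mul sg_cont).mul (hpp 4)))).add
        (continuous_const.mul (hpp 5))
    · refine HasCompactSupport.intro K0_compact fun x hx => ?_
      have h2 : SS w t l x ≤ 0 := by
        by_contra hc
        push Not at hc
        exact hx (SS_K0 h1 hl hc.le)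
      rw [pp_zero (by norm_num) h2, pp_zero (by norm_num) h2]
      simp
  have hLi : Integrable fun x => 6 * pp 5 (SS w t l x) * (wt x - 2 * t) := by
    refine Continuous.integrable_of_hasCompactSupport ?_ ?_
    · exact (continuous_const.mul (hpp 5)).mul (hwt.sub continuous_const)
    · exact ((ppS_cs h1 hl (by norm_num)).mul_left).mul_right
  have key : ∀ x, 6 * pp 5 (SS w t l x) * (wt x - 2 * t) ≤ N x + B x := by
    intro x
    by_cases hx : SS w t l x ≤ 0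
    · rw [hN, hB]
      beta_reduce
      rw [pp_zero (by norm_num) hx, pp_zero (by norm_num) hx]
      simp
    · push Not at hx
      have hK : x ∈ K0 := SS_K0 h1 hl hx.le
      have hs : sg x ≠ 0 := fun h => absurd (SS_ax hax hl h) (not_lt.2 hx.le)
      have hs0 : 0 < sg x := lt_of_le_of_ne (sg_nn x) (Ne.symm hs)
      obtain ⟨k1, k2⟩ := K0_sg hK
      rw [hN, hB]
      beta_reduce
      rw [heq x hK hs, SS_lap (t := t) (l := l) hw, SS_RR (t := t) (l := l) hw,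
        SS_pd (t := t) (l := l) hw 2, lap_kap, pd_kap]
      obtain ⟨P, hP⟩ : ∃ P, P = pp 5 (SS w t l x) := ⟨_, rfl⟩
      obtain ⟨X, hX⟩ : ∃ X, X = pp 4 (SS w t l x) := ⟨_, rfl⟩
      obtain ⟨S0, hS0⟩ : ∃ S0, S0 = pd 0 (SS w t l) x := ⟨_, rfl⟩
      obtain ⟨S1, hS1⟩ : ∃ S1, S1 = pd 1 (SS w t l) x := ⟨_, rfl⟩
      obtain ⟨S2, hS2⟩ : ∃ S2, S2 = pd 2 (SS w t l) x := ⟨_, rfl⟩
      have hR : RR (SS w t l) x = x 0 * S0 + x 1 * S1 := by rw [hS0, hS1]; rfl
      have hG : gr2 (SS w t l) x = S0 ^ 2 + S1 ^ 2 + S2 ^ 2 := by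
        unfold gr2
        rw [Fin.sum_univ_three, hS0, hS1, hS2]
      obtain ⟨Lp, hLp⟩ : ∃ Lp, Lp = lap (SS w t l) x := ⟨_, rfl⟩
      obtain ⟨q, hq⟩ : ∃ q, q = ψ x := ⟨_, rfl⟩
      obtain ⟨b, hb⟩ : ∃ b, b = 2 * ψ x + RR ψ x := ⟨_, rfl⟩
      obtain ⟨p2, hp2⟩ : ∃ p2, p2 = pd 2 ψ x := ⟨_, rfl⟩
      have hP0 : 0 ≤ P := by rw [hP]; exact pp_nonneg _ _
      have hX0 : 0 ≤ X := by rw [hX]; exact pp_nonneg _ _
      rw [← hP, ← hX, ← hS2, hG, ← hLp, ← hp2, ← hb, ← hq, hR]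
      simp only [if_true]
      obtain ⟨z, hz'⟩ : ∃ z, z = x 2 := ⟨_, rfl⟩
      obtain ⟨a0, ha0⟩ : ∃ a0, a0 = x 0 := ⟨_, rfl⟩
      obtain ⟨a1, ha1⟩ : ∃ a1, a1 = x 1 := ⟨_, rfl⟩
      have hsg : sg x = a0 ^ 2 + a1 ^ 2 := by rw [ha0, ha1]; rfl
      obtain ⟨g, hg⟩ : ∃ g, g = sg x := ⟨_, rfl⟩
      rw [← hz'] at k2
      rw [← hg] at k1 hs hs0 hsg
      rw [← hg, ← hz', ← ha0, ← ha1]
      have ht1 := ht.1
      exact key_aux hs0 hsg k1 k2 hX0 hP0 ht1
  calc ∫ x, 6 * pp 5 (SS w t l x) * (wt x - 2 * t) ≤ ∫ x, (N x + B x) :=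
        integral_mono hLi (hNz.1.add hBi) key
    _ = ∫ x, B x := by rw [integral_add hNz.1 hBi, hNz.2, zero_add]
    _ = _ := by rw [hB]

end fixed2


/-! ### Time -/

section time

variable {α β : ℝ}

theorem pd_slice {F : ℝ → V → ℝ}
    (hF : ContDiffOn ℝ ∞ (fun z : ℝ × V => F z.1 z.2) (Ioo α β ×ˢ univ)) {t : ℝ}
    (ht : t ∈ Ioo α β) (x : V) (i : Fin 3) :
    pd i (F t) x = fderiv ℝ (fun z : ℝ × V => F z.1 z.2) (t, x) (0, Pi.single i 1) := by
  have hmem : Ioo α β ×ˢ (univ : Set V) ∈ 𝓝 (t, x) :=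
    prod_mem_nhds (Ioo_mem_nhds ht.1 ht.2) Filter.univ_mem
  have h1 : DifferentiableAt ℝ (fun z : ℝ × V => F z.1 z.2) (t, x) :=
    (hF.contDiffAt hmem).differentiableAt (by norm_cast)
  have h2 : HasFDerivAt (fun y : V => ((t, y) : ℝ × V)) (ContinuousLinearMap.inr ℝ ℝ V) x :=
    hasFDerivAt_prodMk_right t x
  have h3 : HasFDerivAt (F t)
      ((fderiv ℝ (fun z : ℝ × V => F z.1 z.2) (t, x)).comp (ContinuousLinearMap.inr ℝ ℝ V)) x :=
    h1.hasFDerivAt.comp x h2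
  unfold pd
  rw [h3.fderiv]
  simp

theorem cont_fd {F : ℝ → V → ℝ}
    (hF : ContDiffOn ℝ ∞ (fun z : ℝ × V => F z.1 z.2) (Ioo α β ×ˢ univ)) (p : ℝ × V) :
    ContinuousOn (fun z : ℝ × V =>
      fderiv ℝ (fun z : ℝ × V => F z.1 z.2) z p) (Ioo α β ×ˢ univ) :=
  (hF.continuousOn_fderiv_of_isOpen (isOpen_Ioo.prod isOpen_univ) (by norm_cast)).clm_apply
      continuousOn_const

theorem cont_pd {F : ℝ → V → ℝ}
    (hF : ContDiffOn ℝ ∞ (fun z : ℝ × V => F z.1 z.2) (Ioo α β ×ˢ univ)) (i : Fin 3) :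
    ContinuousOn (fun z : ℝ × V => pd i (F z.1) z.2) (Ioo α β ×ˢ univ) :=
  (cont_fd hF (0, Pi.single i 1)).congr fun z hz => pd_slice hF hz.1 z.2 i

theorem sl {F : ℝ → V → ℝ}
    (hF : ContDiffOn ℝ ∞ (fun z : ℝ × V => F z.1 z.2) (Ioo α β ×ˢ univ)) {t : ℝ}
    (ht : t ∈ Ioo α β) : ContDiff ℝ ∞ (F t) := by
  rw [contDiff_iff_contDiffAt]
  intro x
  have hmem : Ioo α β ×ˢ (univ : Set V) ∈ 𝓝 (t, x) :=
    prod_mem_nhds (Ioo_mem_nhds ht.1 ht.2) Filter.univ_mem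
  have h1 : ContDiffAt ℝ ∞ (fun z : ℝ × V => F z.1 z.2) (t, x) := hF.contDiffAt hmem
  exact h1.comp x (contDiffAt_const.prodMk contDiffAt_id)

theorem hd_sl {F : ℝ → V → ℝ}
    (hF : ContDiffOn ℝ ∞ (fun z : ℝ × V => F z.1 z.2) (Ioo α β ×ˢ univ)) {t : ℝ}
    (ht : t ∈ Ioo α β) (x : V) :
    HasDerivAt (fun s => F s x) (fderiv ℝ (fun z : ℝ × V => F z.1 z.2) (t, x) (1, 0)) t := by
  have hmem : Ioo α β ×ˢ (univ : Set V) ∈ 𝓝 (t, x) :=
    prod_mem_nhds (Ioo_mem_nhds ht.1 ht.2) Filter.univ_mem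
  have h1 : DifferentiableAt ℝ (fun z : ℝ × V => F z.1 z.2) (t, x) :=
    (hF.contDiffAt hmem).differentiableAt (by norm_cast)
  have h2 : HasDerivAt (fun s : ℝ => ((s, x) : ℝ × V)) (1, 0) t :=
    (hasDerivAt_id t).prodMk (hasDerivAt_const t x)
  exact h1.hasFDerivAt.comp_hasDerivAt t h2

/-- continuity of integrals with a parameter -/
theorem ci {F : ℝ → V → ℝ} {K : Set V} (hK : IsCompact K)
    (hF : ContinuousOn (fun z : ℝ × V => F z.1 z.2) (Ioo α β ×ˢ univ))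
    (h0 : ∀ t ∈ Ioo α β, ∀ x ∉ K, F t x = 0) :
    ContinuousOn (fun t => ∫ x, F t x) (Ioo α β) :=
  continuousOn_integral_of_compact_support hK hF fun t x ht hx => h0 t ht x hx

/-- derivative under the integral sign -/
theorem hd_int {F F' : ℝ → V → ℝ} {K : Set V} (hK : IsCompact K)
    (hF : ∀ t ∈ Ioo α β, Continuous (F t))
    (hF' : ContinuousOn (fun z : ℝ × V => F' z.1 z.2) (Ioo α β ×ˢ univ))
    (hd : ∀ t ∈ Ioo α β, ∀ x, HasDerivAt (fun s => F s x) (F' t x) t)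
    (h0 : ∀ t ∈ Ioo α β, ∀ x ∉ K, F t x = 0) (h0' : ∀ t ∈ Ioo α β, ∀ x ∉ K, F' t x = 0)
    {t : ℝ} (ht : t ∈ Ioo α β) :
    HasDerivAt (fun s => ∫ x, F s x) (∫ x, F' t x) t := by
  obtain ⟨a, ha1, ha2⟩ := exists_between ht.1
  obtain ⟨b, hb1, hb2⟩ := exists_between ht.2
  have hKK : IsCompact (Icc a b ×ˢ K) := isCompact_Icc.prod hK
  have hsub' : ∀ s ∈ Icc a b, s ∈ Ioo α β := fun s hs => ⟨ha1.trans_le hs.1, hs.2.trans_lt hb2⟩
  have hsub : Icc a b ×ˢ K ⊆ Ioo α β ×ˢ (univ : Set V) :=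
    prod_mono hsub' (subset_univ _)
  obtain ⟨C, hC⟩ := hKK.exists_bound_of_continuousOn (hF'.mono hsub)
  have hnh : Icc a b ∈ 𝓝 t := Icc_mem_nhds ha2 hb1
  have hcF : ∀ s ∈ Ioo α β, Continuous (F' s) := fun s hs =>
    continuousOn_univ.1 (hF'.comp (by fun_prop : ContinuousOn (fun x : V => ((s, x) : ℝ × V)) univ)
      fun x _ => ⟨hs, mem_univ _⟩)
  refine (hasDerivAt_integral_of_dominated_loc_of_deriv_le (s := Icc a b)
    (F := fun s x => F s x) (F' := fun s x => F' s x)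
    (bound := K.indicator fun _ => C) (μ := volume) hnh ?_ ?_ ?_ ?_ ?_ ?_).2
  · filter_upwards [Ioo_mem_nhds ht.1 ht.2] with s hs
    exact (hF s hs).aestronglyMeasurable
  · exact (hF t ht).integrable_of_hasCompactSupport
      (HasCompactSupport.intro hK fun x hx => h0 t ht x hx)
  · exact (hcF t ht).aestronglyMeasurable
  · refine Filter.Eventually.of_forall fun x s hs' => ?_
    by_cases hx : x ∈ K
    · rw [indicator_of_mem hx]
      exact hC (s, x) ⟨hs', hx⟩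
    · rw [indicator_of_notMem hx]
      change ‖F' s x‖ ≤ 0
      rw [h0' s (hsub' s hs') x hx, norm_zero]
  · exact (integrable_indicator_iff hK.measurableSet).2
      (integrableOn_const (hK.measure_lt_top.ne))
  · exact Filter.Eventually.of_forall fun x s hs' => hd s (hsub' s hs') x

end time

/-- the hypotheses after the modification outside the cylinder -/
structure Hyp (Λ η : ℝ) (w ψ : ℝ → V → ℝ) : Prop where
  sm : ContDiffOn ℝ ∞ (fun z : ℝ × V => w z.1 z.2) (Ioo (-1) 0 ×ˢ univ)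
  smψ : ∀ t ∈ Ioo (-1 : ℝ) 0, ContDiff ℝ ∞ (ψ t)
  ub : ∀ t ∈ Ioo (-1 : ℝ) 0, ∀ x, w t x ≤ 1
  ax : ∀ t ∈ Ioo (-1 : ℝ) 0, ∀ x, sg x = 0 → w t x ≤ 0
  eq : ∀ t ∈ Ioo (-1 : ℝ) 0, ∀ x ∈ K0, sg x ≠ 0 → HasDerivAt (fun s => w s x)
    (lap (w t) x - 2 / sg x * RR (w t) x + pd 2 (ψ t) x * RR (w t) x
      - (2 * ψ t x + RR (ψ t) x) * pd 2 (w t) x) t
  pot : ∀ t ∈ Ioo (-1 : ℝ) 0, ∫ x in Co 0 (1 / 2) (1 / 2), sg x ^ 2 * ψ t x ^ 4 ≤ Λ
  vol : ∀ t ∈ Ioo (-1 : ℝ) 0, volume.real {x | x ∈ Co 0 (1 / 2) (1 / 2) ∧ 0 < w t x} ≤ η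

noncomputable def ee (w : ℝ → V → ℝ) (l t : ℝ) : ℝ := ∫ x, pp 6 (SS (w t) t l x)

noncomputable def MM (w : ℝ → V → ℝ) (l t : ℝ) : ℝ := ∫ x, pp 8 (SS (w t) t l x)

noncomputable def DD (w : ℝ → V → ℝ) (l t : ℝ) : ℝ := ∫ x, 9 * (pp 4 (SS (w t) t l x)
  * gr2 (SS (w t) t l) x)

section hyp

variable {Λ η l : ℝ} {w ψ : ℝ → V → ℝ}

lemma DD_eq {t : ℝ} (hw : ContDiff ℝ ∞ (w t)) :
    DD w l t = GD fun x => pp 3 (SS (w t) t l x) := by
  unfold DD GD
  congr 1
  funext x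
  have h1 : ∀ j, pd j (fun x => pp 3 (SS (w t) t l x)) x
      = 3 * pp 2 (SS (w t) t l x) * pd j (SS (w t) t l) x := by
    intro j
    have h2 := ppS_pd (t := t) (l := l) hw (n := 2) (by norm_num) j x
    rw [h2]
    norm_num
  unfold gr2
  simp_rw [h1]
  rw [Fin.sum_univ_three, Fin.sum_univ_three]
  have h3 : pp 4 (SS (w t) t l x) = pp 2 (SS (w t) t l x) ^ 2 := by
    rw [pp_pow]
  rw [h3]
  ring

lemma jS (h : Hyp Λ η w ψ) :
    ContDiffOn ℝ ∞ (fun z : ℝ × V => SS (w z.1) z.1 l z.2) (Ioo (-1) 0 ×ˢ univ) := by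
  unfold SS
  have h1 : ContDiff ℝ ∞ fun z : ℝ × V => kap z.1 z.2 := by
    unfold kap sg
    fun_prop
  exact (h.sm.sub h1.contDiffOn).sub contDiffOn_const

lemma SS_nK0 (h : Hyp Λ η w ψ) (hl : 0 ≤ l) {t : ℝ} (ht : t ∈ Ioo (-1 : ℝ) 0) {x : V}
    (hx : x ∉ K0) : SS (w t) t l x ≤ 0 := by
  by_contra hc
  push Not at hc
  exact hx (SS_K0 (h.ub t ht) hl hc.le)

lemma ee_hd (h : Hyp Λ η w ψ) (hl : 0 ≤ l) {t : ℝ} (ht : t ∈ Ioo (-1 : ℝ) 0) :
    HasDerivAt (ee w l) (∫ x, 6 * pp 5 (SS (w t) t l x)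
      * (fderiv ℝ (fun z : ℝ × V => w z.1 z.2) (t, x) (1, 0) - 2 * t)) t := by
  have hj := jS (l := l) h
  refine hd_int (α := -1) (β := 0) (F := fun t x => pp 6 (SS (w t) t l x))
    (F' := fun t x => 6 * pp 5 (SS (w t) t l x)
      * (fderiv ℝ (fun z : ℝ × V => w z.1 z.2) (t, x) (1, 0) - 2 * t)) K0_compact
    ?_ ?_ ?_ ?_ ?_ ht
  · intro s hs
    exact (pp_cont 6).comp (SS_cd (sl h.sm hs)).continuous
  · refine (continuousOn_const.mul ((pp_cont 5).comp_continuousOn hj.continuousOn)).mul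
      ((cont_fd h.sm (1, 0)).sub ?_)
    fun_prop
  · intro s hs x
    have h1 := hd_sl h.sm hs x
    have h2 : HasDerivAt (fun s : ℝ => kap s x) (2 * s) s := by
      unfold kap
      have h3 := (hasDerivAt_pow 2 s).const_add (1 / 8 + 16 * sg x ^ 2 + 16 * x 2 ^ 4)
      simpa using h3
    have h4 : HasDerivAt (fun s : ℝ => SS (w s) s l x)
        (fderiv ℝ (fun z : ℝ × V => w z.1 z.2) (s, x) (1, 0) - 2 * s) s :=
      (h1.sub h2).sub_const l
    have h5 := (pp_hd 5 (by norm_num) (SS (w s) s l x)).comp s h4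
    have e : ((5 : ℕ) : ℝ) + 1 = 6 := by norm_num
    rw [e] at h5
    exact h5
  · intro s hs x hx
    exact pp_zero (by norm_num) (SS_nK0 h hl hs hx)
  · intro s hs x hx
    rw [pp_zero (by norm_num) (SS_nK0 h hl hs hx)]
    simp

lemma ee'_cont (h : Hyp Λ η w ψ) (hl : 0 ≤ l) :
    ContinuousOn (fun t => ∫ x, 6 * pp 5 (SS (w t) t l x)
      * (fderiv ℝ (fun z : ℝ × V => w z.1 z.2) (t, x) (1, 0) - 2 * t)) (Ioo (-1) 0) := by
  have hj := jS (l := l) h
  refine ci (F := fun t x => 6 * pp 5 (SS (w t) t l x)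
      * (fderiv ℝ (fun z : ℝ × V => w z.1 z.2) (t, x) (1, 0) - 2 * t)) K0_compact ?_ ?_
  · refine (continuousOn_const.mul ((pp_cont 5).comp_continuousOn hj.continuousOn)).mul
      ((cont_fd h.sm (1, 0)).sub ?_)
    fun_prop
  · intro s hs x hx
    rw [pp_zero (by norm_num) (SS_nK0 h hl hs hx)]
    simp

lemma MM_cont (h : Hyp Λ η w ψ) (hl : 0 ≤ l) : ContinuousOn (MM w l) (Ioo (-1) 0) := by
  have hj := jS (l := l) h
  refine ci (F := fun t x => pp 8 (SS (w t) t l x)) K0_compact ?_ ?_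
  · exact (pp_cont 8).comp_continuousOn hj.continuousOn
  · intro s hs x hx
    exact pp_zero (by norm_num) (SS_nK0 h hl hs hx)

lemma DD_cont (h : Hyp Λ η w ψ) (hl : 0 ≤ l) : ContinuousOn (DD w l) (Ioo (-1) 0) := by
  have hj := jS (l := l) h
  refine ci (F := fun t x => 9 * (pp 4 (SS (w t) t l x) * gr2 (SS (w t) t l) x)) K0_compact ?_ ?_
  · refine continuousOn_const.mul (((pp_cont 4).comp_continuousOn hj.continuousOn).mul ?_)
    unfold gr2
    refine continuousOn_finsetSum _ fun j _ => ContinuousOn.pow ?_ 2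
    exact cont_pd (F := fun t x => SS (w t) t l x) hj j
  · intro s hs x hx
    rw [pp_zero (by norm_num) (SS_nK0 h hl hs hx)]
    simp

end hyp


section energy

variable {Λ η l : ℝ} {w ψ : ℝ → V → ℝ}

lemma Co_sub : Co 0 (1 / 2) (1 / 2) ⊆ closedBall (0 : V) 1 := by
  intro x hx
  obtain ⟨h1, h2⟩ := hx
  rw [mem_closedBall_zero_iff, pi_norm_le_iff_of_nonneg zero_le_one]
  unfold sg at h1
  rw [sub_zero] at h2
  intro i
  rw [Real.norm_eq_abs]
  fin_cases i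
  · refine abs_le_of_sq_le_sq ?_ zero_le_one
    show x 0 ^ 2 ≤ 1 ^ 2
    nlinarith [sq_nonneg (x 1)]
  · refine abs_le_of_sq_le_sq ?_ zero_le_one
    show x 1 ^ 2 ≤ 1 ^ 2
    nlinarith [sq_nonneg (x 0)]
  · show |x 2| ≤ 1
    linarith

lemma Co_open (c r h : ℝ) : IsOpen (Co c r h) := by
  have e : Co c r h = {x | sg x < r ^ 2} ∩ {x | |x 2 - c| < h} := rfl
  rw [e]
  exact (isOpen_lt sg_cont continuous_const).inter
    (isOpen_lt (by fun_prop) continuous_const)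

lemma Co_int {f : V → ℝ} (hf : Continuous f) : IntegrableOn f (Co 0 (1 / 2) (1 / 2)) :=
  (hf.continuousOn.integrableOn_compact (isCompact_closedBall (0 : V) 1)).mono_set Co_sub

lemma K0_Co {x : V} (hx : x ∈ K0) : x ∈ Co 0 (49 / 100) (49 / 100) := by
  have h1 : 16 * sg x ^ 2 + 16 * x 2 ^ 4 ≤ 7 / 8 := hx
  have h2 := sg_nn x
  constructor
  · by_contra hc
    push Not at hc
    nlinarith [sq_nonneg (x 2 ^ 2)]
  · rw [sub_zero]
    refine abs_lt_of_sq_lt_sq ?_ (by norm_num)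
    by_contra hc
    push Not at hc
    nlinarith [sq_nonneg (sg x)]

lemma K0_Co' {x : V} (hx : x ∈ K0) : x ∈ Co 0 (1 / 2) (1 / 2) := by
  obtain ⟨h1, h2⟩ := K0_Co hx
  exact ⟨h1.trans (by norm_num), h2.trans (by norm_num)⟩

lemma sq_aux {X q g : ℝ} {a : ℝ} (ha : 0 < a) :
    q ^ 2 * g * X ≤ a / 2 * (g ^ 2 * q ^ 4) + X ^ 2 / (2 * a) := by
  have h1 : 0 ≤ (a * (g * q ^ 2) - X) ^ 2 / (2 * a) := by positivity
  have h2 : (a * (g * q ^ 2) - X) ^ 2 / (2 * a)
      = a / 2 * (g ^ 2 * q ^ 4) + X ^ 2 / (2 * a) - q ^ 2 * g * X := by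
    field_simp
    ring
  linarith

/-- the constant of the energy inequality -/
noncomputable def LC (Λ : ℝ) : ℝ :=
  14400 * Λ + 342 * volume.real (Co 0 (1 / 2) (1 / 2)) + 14742

lemma sqrt_aux {I A0 A1 M : ℝ} (hM : 0 ≤ M)
    (h : ∀ a : ℝ, 0 < a → I ≤ a * A0 + A1 * M / a) : I ≤ (A0 + A1) * √M := by
  rcases hM.eq_or_lt with h0 | h0
  · rw [← h0, Real.sqrt_zero, mul_zero]
    refine le_of_forall_pos_le_add fun ε hε => ?_
    rw [zero_add]
    have h1 := h (ε / (|A0| + 1)) (by positivity)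
    rw [← h0] at h1
    simp only [mul_zero, zero_div, add_zero] at h1
    refine h1.trans ?_
    have h2 : ε / (|A0| + 1) * A0 ≤ ε / (|A0| + 1) * (|A0| + 1) :=
      mul_le_mul_of_nonneg_left (by linarith [le_abs_self A0]) (by positivity)
    have h3 : ε / (|A0| + 1) * (|A0| + 1) = ε := by field_simp
    linarith
  · have h1 := h (√M) (Real.sqrt_pos.2 h0)
    have h2 : A1 * M / √M = A1 * √M := by
      rw [mul_div_assoc, Real.div_sqrt]
    rw [h2] at h1
    linarith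

lemma pp_le_one {n : ℕ} {y : ℝ} (hy : y ≤ 1) : pp n y ≤ 1 := by
  unfold pp
  exact pow_le_one₀ (le_max_right _ _) (max_le hy zero_le_one)

lemma SS_le (h : Hyp Λ η w ψ) (hl : 0 ≤ l) {t : ℝ} (ht : t ∈ Ioo (-1 : ℝ) 0) (x : V) :
    SS (w t) t l x ≤ 1 := by
  have h1 := h.ub t ht x
  unfold SS kap
  have h2 : 0 ≤ x 2 ^ 4 := by positivity
  nlinarith [sq_nonneg (sg x), sq_nonneg t]

/-- energy inequality -/
lemma en (h : Hyp Λ η w ψ) (hl : 0 ≤ l) {t : ℝ} (ht : t ∈ Ioo (-1 : ℝ) 0) :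
    ∫ x, 6 * pp 5 (SS (w t) t l x)
      * (fderiv ℝ (fun z : ℝ × V => w z.1 z.2) (t, x) (1, 0) - 2 * t)
      ≤ -DD w l t + LC Λ * √(MM w l t) := by
  have hwt : Continuous fun x => fderiv ℝ (fun z : ℝ × V => w z.1 z.2) (t, x) (1, 0) :=
    continuousOn_univ.1 ((cont_fd h.sm (1, 0)).comp
      (by fun_prop : ContinuousOn (fun x : V => ((t, x) : ℝ × V)) univ)
      fun x _ => ⟨ht, mem_univ _⟩)
  have hw := sl h.sm ht
  have hψ := h.smψ t ht
  have hf := fixed (t := t) (l := l) hw hψ (h.ub t ht) (h.ax t ht) hl ht hwt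
    fun x hx hs => (hd_sl h.sm ht x).unique (h.eq t ht x hx hs)
  refine hf.trans ?_
  have hSc : Continuous (SS (w t) t l) := (SS_cd hw).continuous
  have hpp : ∀ n, Continuous fun x => pp n (SS (w t) t l x) := fun n => (pp_cont n).comp hSc
  have hgc : Continuous (gr2 (SS (w t) t l)) := by
    unfold gr2
    exact continuous_finsetSum _ fun j _ => ((pd_cdi (SS_cd hw) j).continuous.pow 2)
  have hz : ∀ x ∉ K0, ∀ n ≠ 0, pp n (SS (w t) t l x) = 0 := fun x hx n hn =>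
    pp_zero hn (SS_nK0 h hl ht hx)
  have i1 : Integrable fun x => 9 * (pp 4 (SS (w t) t l x) * gr2 (SS (w t) t l) x) := by
    refine Continuous.integrable_of_hasCompactSupport (continuous_const.mul ((hpp 4).mul hgc)) ?_
    refine HasCompactSupport.intro K0_compact fun x hx => ?_
    rw [hz x hx 4 (by norm_num)]
    simp
  have i8 : Integrable fun x => pp 8 (SS (w t) t l x) :=
    (hpp 8).integrable_of_hasCompactSupport
      (HasCompactSupport.intro K0_compact fun x hx => hz x hx 8 (by norm_num))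
  have iL : Integrable fun x => (-(29 * (pp 4 (SS (w t) t l x) * gr2 (SS (w t) t l) x))
        + 28800 * (ψ t x ^ 2 * sg x * pp 4 (SS (w t) t l x)) + 684 * pp 5 (SS (w t) t l x)) := by
    refine Continuous.integrable_of_hasCompactSupport ?_ ?_
    · exact ((continuous_const.mul ((hpp 4).mul hgc)).neg.add
        (continuous_const.mul (((hψ.continuous.pow 2).mul sg_cont).mul (hpp 4)))).add
        (continuous_const.mul (hpp 5))
    · refine HasCompactSupport.intro K0_compact fun x hx => ?_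
      rw [hz x hx 4 (by norm_num), hz x hx 5 (by norm_num)]
      simp
  have hCo : MeasurableSet (Co 0 (1 / 2) (1 / 2)) := (Co_open _ _ _).measurableSet
  have hfin : volume (Co 0 (1 / 2) (1 / 2)) ≠ ⊤ :=
    ((measure_mono Co_sub).trans_lt measure_closedBall_lt_top).ne
  have hP : Continuous fun x => sg x ^ 2 * ψ t x ^ 4 :=
    (sg_cont.pow 2).mul (hψ.continuous.pow 4)
  have hMM0 : 0 ≤ MM w l t := integral_nonneg fun x => pp_nonneg _ _
  have key : (∫ x, (-(29 * (pp 4 (SS (w t) t l x) * gr2 (SS (w t) t l) x))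
        + 28800 * (ψ t x ^ 2 * sg x * pp 4 (SS (w t) t l x)) + 684 * pp 5 (SS (w t) t l x)))
        + DD w l t ≤ ((14400 * Λ + 342 * volume.real (Co 0 (1 / 2) (1 / 2))) + 14742)
          * √(MM w l t) := by
    refine sqrt_aux hMM0 fun a ha => ?_
    unfold DD MM
    rw [← integral_add iL i1]
    have j1 : Integrable ((Co 0 (1 / 2) (1 / 2)).indicator fun x =>
        14400 * a * (sg x ^ 2 * ψ t x ^ 4) + 342 * a) :=
      (integrable_indicator_iff hCo).2 (Co_int (by fun_prop))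
    have j2 : Integrable fun x => 14742 / a * pp 8 (SS (w t) t l x) := i8.const_mul _
    have hle : ∀ x, (-(29 * (pp 4 (SS (w t) t l x) * gr2 (SS (w t) t l) x))
        + 28800 * (ψ t x ^ 2 * sg x * pp 4 (SS (w t) t l x)) + 684 * pp 5 (SS (w t) t l x))
        + 9 * (pp 4 (SS (w t) t l x) * gr2 (SS (w t) t l) x)
        ≤ (Co 0 (1 / 2) (1 / 2)).indicator (fun x =>
          14400 * a * (sg x ^ 2 * ψ t x ^ 4) + 342 * a) x
          + 14742 / a * pp 8 (SS (w t) t l x) := by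
      intro x
      by_cases hx : x ∈ Co 0 (1 / 2) (1 / 2)
      · rw [indicator_of_mem hx]
        have e8 : pp 8 (SS (w t) t l x) = pp 4 (SS (w t) t l x) ^ 2 := by rw [pp_pow]
        have e5 : pp 5 (SS (w t) t l x) ≤ pp 4 (SS (w t) t l x) := by
          have h1 : pp 5 (SS (w t) t l x) = pp 4 (SS (w t) t l x) * pp 1 (SS (w t) t l x) := by
            rw [pp_mul]
          rw [h1]
          have h2 := pp_le_one (n := 1) (SS_le h hl ht x)
          have h3 := pp_nonneg 4 (SS (w t) t l x)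
          nlinarith
        obtain ⟨X, hX⟩ : ∃ X, X = pp 4 (SS (w t) t l x) := ⟨_, rfl⟩
        have hX0 : 0 ≤ X := by rw [hX]; exact pp_nonneg _ _
        have hG0 : 0 ≤ gr2 (SS (w t) t l) x := Finset.sum_nonneg fun j _ => sq_nonneg _
        rw [← hX] at e8 e5 ⊢
        rw [e8]
        have q1 := sq_aux (X := X) (q := ψ t x) (g := sg x) ha
        have q2 := sq_aux (X := X) (q := 1) (g := 1) ha
        simp only [one_pow, mul_one, one_mul] at q2
        have q3 : 14742 / a * X ^ 2 = 28800 * (X ^ 2 / (2 * a)) + 684 * (X ^ 2 / (2 * a)) := by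
          field_simp
          ring
        rw [q3]
        have q4 : 0 ≤ X * gr2 (SS (w t) t l) x := mul_nonneg hX0 hG0
        linarith
      · rw [indicator_of_notMem hx]
        have hx' : x ∉ K0 := fun h => hx (K0_Co' h)
        rw [hz x hx' 4 (by norm_num), hz x hx' 5 (by norm_num), hz x hx' 8 (by norm_num)]
        simp
    refine (integral_mono (iL.add i1) (j1.add j2) hle).trans ?_
    rw [integral_add' j1 j2, integral_indicator hCo, integral_const_mul, integral_add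
      (Co_int (by fun_prop)) (Co_int (by fun_prop)), integral_const_mul, setIntegral_const,
      smul_eq_mul]
    have h1 := h.pot t ht
    have h2 : 14400 * a * ∫ x in Co 0 (1 / 2) (1 / 2), sg x ^ 2 * ψ t x ^ 4
        ≤ 14400 * a * Λ := mul_le_mul_of_nonneg_left h1 (by positivity)
    have h3 : 14742 / a * ∫ x, pp 8 (SS (w t) t l x)
        = 14742 * (∫ x, pp 8 (SS (w t) t l x)) / a := by ring
    rw [h3]
    linarith
  unfold LC
  linarith

/-- the integrated energy inequality -/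
lemma eni (h : Hyp Λ η w ψ) (hl : 0 ≤ l) {τ : ℝ} (hτ : τ ∈ Ioo (-(19 / 20) : ℝ) 0) :
    ee w l τ + ∫ s in (-(19 / 20) : ℝ)..τ, DD w l s
      ≤ LC Λ * ∫ s in (-(19 / 20) : ℝ)..τ, √(MM w l s) := by
  have hsub : uIcc (-(19 / 20) : ℝ) τ ⊆ Ioo (-1) 0 := by
    rw [uIcc_of_le hτ.1.le]
    exact fun s hs => ⟨lt_of_lt_of_le (by norm_num) hs.1, hs.2.trans_lt hτ.2⟩
  have hi : ∀ {f : ℝ → ℝ}, ContinuousOn f (Ioo (-1) 0) →
      IntervalIntegrable f volume (-(19 / 20) : ℝ) τ := fun hf =>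
    (hf.mono hsub).intervalIntegrable
  have h0 : ee w l (-(19 / 20)) = 0 := by
    unfold ee
    rw [integral_eq_zero_of_ae]
    refine Filter.Eventually.of_forall fun x => ?_
    refine pp_zero (by norm_num) ?_
    have h1 := h.ub (-(19 / 20)) ⟨by norm_num, by norm_num⟩ x
    unfold SS kap
    have h2 : 0 ≤ x 2 ^ 4 := by positivity
    nlinarith [sq_nonneg (sg x)]
  have hft := intervalIntegral.integral_eq_sub_of_hasDerivAt
    (fun s hs => ee_hd h hl (hsub hs)) (hi (ee'_cont h hl))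
  rw [h0, sub_zero] at hft
  have hD := hi (DD_cont h hl)
  have hM : IntervalIntegrable (fun s => √(MM w l s)) volume (-(19 / 20) : ℝ) τ :=
    hi ((MM_cont h hl).sqrt)
  have hDn : IntervalIntegrable (fun s => -DD w l s) volume (-(19 / 20) : ℝ) τ := hD.neg
  have hMc : IntervalIntegrable (fun s => LC Λ * √(MM w l s)) volume (-(19 / 20) : ℝ) τ :=
    hM.const_mul _
  have hsum : IntervalIntegrable (fun s => -DD w l s + LC Λ * √(MM w l s)) volume
    (-(19 / 20) : ℝ) τ := hDn.add hMc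
  have hm := intervalIntegral.integral_mono_on hτ.1.le (hi (ee'_cont h hl)) hsum (fun s hs => by
      have hs' : s ∈ Ioo (-1 : ℝ) 0 := ⟨lt_of_lt_of_le (by norm_num) hs.1, hs.2.trans_lt hτ.2⟩
      exact en h hl hs')
  rw [hft] at hm
  have e : (∫ s in (-(19 / 20) : ℝ)..τ, (-DD w l s + LC Λ * √(MM w l s)))
      = -(∫ s in (-(19 / 20) : ℝ)..τ, DD w l s)
        + LC Λ * ∫ s in (-(19 / 20) : ℝ)..τ, √(MM w l s) := by
    rw [intervalIntegral.integral_add hDn hMc, intervalIntegral.integral_neg,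
      intervalIntegral.integral_const_mul]
  rw [e] at hm
  linarith

end energy


section iterate

variable {Λ η l C : ℝ} {w ψ : ℝ → V → ℝ}

lemma int_pp (h : Hyp Λ η w ψ) (hl : 0 ≤ l) {t : ℝ} (ht : t ∈ Ioo (-1 : ℝ) 0) {n : ℕ}
    (hn : n ≠ 0) : Integrable fun x => pp n (SS (w t) t l x) :=
  ((pp_cont n).comp (SS_cd (sl h.sm ht)).continuous).integrable_of_hasCompactSupport
      (HasCompactSupport.intro K0_compact fun _ hx => pp_zero hn (SS_nK0 h hl ht hx))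

lemma amgm {c y : ℝ} (hc : 0 < c) (hy : 0 ≤ y) :
    y ^ 14 ≤ 1 / 3 * c⁻¹ ^ 2 * y ^ 6 + 2 / 3 * c * y ^ 18 := by
  have h1 : 0 ≤ (c * y ^ 4 - 1) ^ 2 * (2 * (c * y ^ 4) + 1) := by positivity
  have h2 : (1 / 3 * c⁻¹ ^ 2 * y ^ 6 + 2 / 3 * c * y ^ 18) - y ^ 14
      = 1 / 3 * c⁻¹ ^ 2 * y ^ 6 * ((c * y ^ 4 - 1) ^ 2 * (2 * (c * y ^ 4) + 1)) := by
    field_simp
    ring
  have h3 : 0 ≤ 1 / 3 * c⁻¹ ^ 2 * y ^ 6 * ((c * y ^ 4 - 1) ^ 2 * (2 * (c * y ^ 4) + 1)) := by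
    positivity
  linarith

lemma stp (hC : 0 < C) (hS : ∀ g : V → ℝ, ContDiff ℝ 1 g → HasCompactSupport g →
    ∫ x, g x ^ 6 ≤ C * (GD g) ^ 3) (h : Hyp Λ η w ψ) (hl : 0 ≤ l) {δ b : ℝ} (hδ : 0 < δ)
    (hb : 0 < b) {t : ℝ} (ht : t ∈ Ioo (-1 : ℝ) 0) (he : ee w l t ≤ b ^ 6) :
    √(MM w (l + δ) t) ≤ (δ⁻¹ ^ 3 * (C + 1) * b) * DD w l t := by
  have hw := sl h.sm ht
  have hD0 : 0 ≤ DD w l t := integral_nonneg fun x => mul_nonneg (by norm_num)
    (mul_nonneg (pp_nonneg _ _) (Finset.sum_nonneg fun j _ => sq_nonneg _))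
  have i6 := int_pp h hl ht (n := 6) (by norm_num)
  have i14 := int_pp h hl ht (n := 14) (by norm_num)
  have i18 := int_pp h hl ht (n := 18) (by norm_num)
  have i8 := int_pp h (l := l + δ) (by linarith) ht (n := 8) (by norm_num)
  have hW : ∫ x, pp 18 (SS (w t) t l x) ≤ ((C + 1) * DD w l t) ^ 3 := by
    have h1 := hS (fun x => pp 3 (SS (w t) t l x)) ((ppS_cd hw 2).of_le (by norm_num))
      (ppS_cs (h.ub t ht) hl (by norm_num))
    rw [← DD_eq hw] at h1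
    have h2 : (fun x => pp 3 (SS (w t) t l x) ^ 6) = fun x => pp 18 (SS (w t) t l x) := by
      funext x
      rw [pp_pow]
    rw [h2] at h1
    refine h1.trans ?_
    rw [mul_pow]
    refine mul_le_mul_of_nonneg_right ?_ (by positivity)
    nlinarith [sq_nonneg C, mul_pos hC (mul_pos hC hC)]
  have h14 : ∀ d : ℝ, 0 < d → (C + 1) * DD w l t ≤ d →
      ∫ x, pp 14 (SS (w t) t l x) ≤ b ^ 2 * d ^ 2 := by
    intro d hd hdd
    have hc : 0 < b ^ 2 / d := by positivity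
    have h1 : ∫ x, pp 14 (SS (w t) t l x) ≤ ∫ x, (1 / 3 * (b ^ 2 / d)⁻¹ ^ 2
        * pp 6 (SS (w t) t l x) + 2 / 3 * (b ^ 2 / d) * pp 18 (SS (w t) t l x)) :=
      integral_mono i14 ((i6.const_mul _).add (i18.const_mul _)) fun x =>
        amgm hc (le_max_right _ _)
    have h2 : ∫ x, (1 / 3 * (b ^ 2 / d)⁻¹ ^ 2
        * pp 6 (SS (w t) t l x) + 2 / 3 * (b ^ 2 / d) * pp 18 (SS (w t) t l x))
        = 1 / 3 * (b ^ 2 / d)⁻¹ ^ 2 * ee w l t
          + 2 / 3 * (b ^ 2 / d) * ∫ x, pp 18 (SS (w t) t l x) := by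
      rw [integral_add (i6.const_mul _) (i18.const_mul _), integral_const_mul,
        integral_const_mul]
      rfl
    rw [h2] at h1
    refine h1.trans ?_
    have h3 : 1 / 3 * (b ^ 2 / d)⁻¹ ^ 2 * ee w l t ≤ 1 / 3 * (b ^ 2 / d)⁻¹ ^ 2 * b ^ 6 :=
      mul_le_mul_of_nonneg_left he (by positivity)
    have h4 : 2 / 3 * (b ^ 2 / d) * ∫ x, pp 18 (SS (w t) t l x)
        ≤ 2 / 3 * (b ^ 2 / d) * d ^ 3 :=
      mul_le_mul_of_nonneg_left (hW.trans (pow_le_pow_left₀ (by positivity) hdd 3))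
        (by positivity)
    have h5 : 1 / 3 * (b ^ 2 / d)⁻¹ ^ 2 * b ^ 6 + 2 / 3 * (b ^ 2 / d) * d ^ 3 = b ^ 2 * d ^ 2 := by
      field_simp
      ring
    linarith
  have h14' : ∫ x, pp 14 (SS (w t) t l x) ≤ b ^ 2 * ((C + 1) * DD w l t) ^ 2 := by
    rcases hD0.eq_or_lt with h0 | h0
    · rw [← h0]
      refine le_of_forall_pos_le_add fun ε hε => ?_
      have h1 := h14 (√ε / b) (by positivity) (by rw [← h0, mul_zero]; positivity)
      have h2 : b ^ 2 * (√ε / b) ^ 2 = ε := by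
        rw [div_pow, Real.sq_sqrt hε.le]
        field_simp
      rw [h2] at h1
      simpa using h1
    · exact h14 _ (by positivity) le_rfl
  have hM : MM w (l + δ) t ≤ (δ⁻¹ ^ 3) ^ 2 * ∫ x, pp 14 (SS (w t) t l x) := by
    unfold MM
    rw [← integral_const_mul]
    refine integral_mono i8 (i14.const_mul _) fun x => ?_
    have e : SS (w t) t (l + δ) x = SS (w t) t l x - δ := by
      unfold SS
      ring
    beta_reduce
    rw [e]
    by_cases hx : SS (w t) t l x ≤ δ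
    · rw [pp_zero (by norm_num) (by linarith)]
      exact mul_nonneg (by positivity) (pp_nonneg _ _)
    · push Not at hx
      obtain ⟨y, hy⟩ : ∃ y, y = SS (w t) t l x := ⟨_, rfl⟩
      rw [← hy] at hx ⊢
      rw [pp_pos _ (by linarith), pp_pos _ (by linarith)]
      have h1 : (y - δ) ^ 8 ≤ y ^ 8 := pow_le_pow_left₀ (by linarith) (by linarith) 8
      have h2 : δ ^ 6 ≤ y ^ 6 := pow_le_pow_left₀ hδ.le hx.le 6
      have h3 : (δ⁻¹ ^ 3) ^ 2 * y ^ 14 = y ^ 8 * (y ^ 6 / δ ^ 6) := by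
        field_simp
      rw [h3]
      have h4 : 1 ≤ y ^ 6 / δ ^ 6 := (one_le_div (by positivity)).2 h2
      have h5 : 0 ≤ y ^ 8 := by positivity
      nlinarith
  rw [Real.sqrt_le_left (by positivity)]
  refine hM.trans ?_
  calc (δ⁻¹ ^ 3) ^ 2 * ∫ x, pp 14 (SS (w t) t l x)
      ≤ (δ⁻¹ ^ 3) ^ 2 * (b ^ 2 * ((C + 1) * DD w l t) ^ 2) :=
        mul_le_mul_of_nonneg_left h14' (by positivity)
    _ = _ := by ring

/-- the levels -/
noncomputable def lj (j : ℕ) : ℝ := 1 / 8 * (1 - (1 / 2) ^ j)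

lemma lj_nn (j : ℕ) : 0 ≤ lj j := by
  unfold lj
  have : ((1 : ℝ) / 2) ^ j ≤ 1 := pow_le_one₀ (by norm_num) (by norm_num)
  linarith

lemma lj_le (j : ℕ) : lj j ≤ 1 / 8 := by
  unfold lj
  have : 0 ≤ ((1 : ℝ) / 2) ^ j := by positivity
  linarith

lemma lj_succ (j : ℕ) : lj (j + 1) = lj j + 1 / 16 * (1 / 2) ^ j := by
  unfold lj
  rw [pow_succ]
  ring

lemma iter (hC : 0 < C) (hS : ∀ g : V → ℝ, ContDiff ℝ 1 g → HasCompactSupport g →
    ∫ x, g x ^ 6 ≤ C * (GD g) ^ 3) (h : Hyp Λ η w ψ) (hΛ : 0 ≤ Λ) {b : ℝ} (hb : 0 < b)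
    (hb1 : LC Λ * (C + 1) * 8 ^ 10 * b ≤ 1) (hη : LC Λ * √η ≤ b ^ 6) (j : ℕ) :
    ∀ τ ∈ Ioo (-(19 / 20) : ℝ) 0, ee w (lj j) τ ≤ (b / 8 ^ j) ^ 6 ∧
      ∫ s in (-(19 / 20) : ℝ)..τ, DD w (lj j) s ≤ (b / 8 ^ j) ^ 6 := by
  have hLC : 0 ≤ LC Λ := by
    unfold LC
    positivity
  have hD0 : ∀ l s, 0 ≤ DD w l s := fun l s => integral_nonneg fun x =>
    mul_nonneg (by norm_num)
    (mul_nonneg (pp_nonneg _ _) (Finset.sum_nonneg fun j _ => sq_nonneg _))
  have he0 : ∀ l s, 0 ≤ ee w l s := fun l s => integral_nonneg fun x => pp_nonneg _ _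
  have hDi : ∀ l τ, τ ∈ Ioo (-(19 / 20) : ℝ) 0 →
      0 ≤ ∫ s in (-(19 / 20) : ℝ)..τ, DD w l s := fun l τ hτ =>
    intervalIntegral.integral_nonneg hτ.1.le fun s _ => hD0 l s
  have hii : ∀ {f : ℝ → ℝ} {τ : ℝ}, τ ∈ Ioo (-(19 / 20) : ℝ) 0 → ContinuousOn f (Ioo (-1) 0) →
      IntervalIntegrable f volume (-(19 / 20) : ℝ) τ := by
    intro f τ hτ hf
    have hsub : uIcc (-(19 / 20) : ℝ) τ ⊆ Ioo (-1) 0 := by
      rw [uIcc_of_le hτ.1.le]
      exact fun s hs => ⟨lt_of_lt_of_le (by norm_num) hs.1, hs.2.trans_lt hτ.2⟩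
    exact (hf.mono hsub).intervalIntegrable
  induction j with
  | zero =>
    intro τ hτ
    have hl0 : lj 0 = 0 := by unfold lj; simp
    have h1 := eni (l := lj 0) h (lj_nn 0) hτ
    have hM : ∀ s ∈ Ioo (-1 : ℝ) 0, MM w (lj 0) s ≤ η := by
      intro s hs
      refine le_trans ?_ (h.vol s hs)
      have hmeas : MeasurableSet {x | x ∈ Co 0 (1 / 2) (1 / 2) ∧ 0 < w s x} :=
        ((Co_open _ _ _).inter (isOpen_lt continuous_const (sl h.sm hs).continuous)).measurableSet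
      have hfin : volume {x | x ∈ Co 0 (1 / 2) (1 / 2) ∧ 0 < w s x} ≠ ⊤ :=
        ((measure_mono fun x hx => Co_sub hx.1).trans_lt measure_closedBall_lt_top).ne
      have e1 : volume.real {x | x ∈ Co 0 (1 / 2) (1 / 2) ∧ 0 < w s x}
          = ∫ x, ({x | x ∈ Co 0 (1 / 2) (1 / 2) ∧ 0 < w s x}.indicator fun _ => (1 : ℝ)) x := by
        rw [integral_indicator hmeas, setIntegral_const]
        simp
      rw [e1]
      unfold MM
      refine integral_mono (int_pp h (lj_nn 0) hs (by norm_num))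
        ((integrable_indicator_iff hmeas).2 (integrableOn_const hfin)) fun x => ?_
      beta_reduce
      by_cases hx : SS (w s) s (lj 0) x ≤ 0
      · rw [pp_zero (by norm_num) hx]
        exact indicator_nonneg (fun _ _ => zero_le_one) x
      · push Not at hx
        have hx1 : x ∈ K0 := SS_K0 (h.ub s hs) (lj_nn 0) hx.le
        have hx2 : x ∈ {x | x ∈ Co 0 (1 / 2) (1 / 2) ∧ 0 < w s x} := by
          refine ⟨K0_Co' hx1, ?_⟩
          unfold SS kap at hx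
          have h2 : 0 ≤ x 2 ^ 4 := by positivity
          have h3 := lj_nn 0
          nlinarith [sq_nonneg (sg x), sq_nonneg s]
        rw [indicator_of_mem hx2]
        exact pp_le_one (SS_le h (lj_nn 0) hs x)
    have h2 : ∫ s in (-(19 / 20) : ℝ)..τ, √(MM w (lj 0) s) ≤ √η := by
      have h3 := intervalIntegral.integral_mono_on hτ.1.le
        (hii hτ (MM_cont h (lj_nn 0)).sqrt) (intervalIntegrable_const (c := √η)) fun s hs =>
          Real.sqrt_le_sqrt (hM s ⟨lt_of_lt_of_le (by norm_num) hs.1, hs.2.trans_lt hτ.2⟩)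
      refine h3.trans ?_
      rw [intervalIntegral.integral_const, smul_eq_mul]
      have h4 := Real.sqrt_nonneg η
      have h5 := hτ.2
      nlinarith
    have h3 : LC Λ * ∫ s in (-(19 / 20) : ℝ)..τ, √(MM w (lj 0) s) ≤ LC Λ * √η :=
      mul_le_mul_of_nonneg_left h2 hLC
    have h4 := hDi (lj 0) τ hτ
    have h5 := he0 (lj 0) τ
    rw [pow_zero, div_one]
    constructor <;> linarith
  | succ j ih =>
    intro τ hτ
    have h1 := eni (l := lj (j + 1)) h (lj_nn (j + 1)) hτ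
    have hδ : (0 : ℝ) < 1 / 16 * (1 / 2) ^ j := by positivity
    have hbj : 0 < b / 8 ^ j := by positivity
    have hM : ∀ s ∈ Ioc (-(19 / 20) : ℝ) τ, √(MM w (lj (j + 1)) s)
        ≤ ((1 / 16 * (1 / 2) ^ j : ℝ)⁻¹ ^ 3 * (C + 1) * (b / 8 ^ j)) * DD w (lj j) s := by
      intro s hs
      rw [lj_succ]
      exact stp hC hS h (lj_nn j) hδ hbj ⟨lt_trans (by norm_num) hs.1, hs.2.trans_lt hτ.2⟩
        (ih s ⟨hs.1, hs.2.trans_lt hτ.2⟩).1
    have h2 : ∫ s in (-(19 / 20) : ℝ)..τ, √(MM w (lj (j + 1)) s)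
        ≤ ((1 / 16 * (1 / 2) ^ j : ℝ)⁻¹ ^ 3 * (C + 1) * (b / 8 ^ j)) * (b / 8 ^ j) ^ 6 := by
      have h3 : ∫ s in (-(19 / 20) : ℝ)..τ, √(MM w (lj (j + 1)) s)
          ≤ ∫ s in (-(19 / 20) : ℝ)..τ,
            ((1 / 16 * (1 / 2) ^ j : ℝ)⁻¹ ^ 3 * (C + 1) * (b / 8 ^ j)) * DD w (lj j) s := by
        rw [intervalIntegral.integral_of_le hτ.1.le, intervalIntegral.integral_of_le hτ.1.le]
        refine setIntegral_mono_on (hii hτ (MM_cont h (lj_nn (j + 1))).sqrt).1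
          ((hii hτ (DD_cont h (lj_nn j))).const_mul _).1 measurableSet_Ioc hM
      refine h3.trans ?_
      rw [intervalIntegral.integral_const_mul]
      exact mul_le_mul_of_nonneg_left (ih τ hτ).2 (by positivity)
    have h3 := mul_le_mul_of_nonneg_left h2 hLC
    have h4 : LC Λ * (((1 / 16 * (1 / 2) ^ j : ℝ)⁻¹ ^ 3 * (C + 1) * (b / 8 ^ j))
        * (b / 8 ^ j) ^ 6) ≤ (b / 8 ^ (j + 1)) ^ 6 := by
      have e1 : ((1 / 16 * (1 / 2) ^ j : ℝ))⁻¹ ^ 3 = 4096 * 8 ^ j := by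
        rw [mul_inv, mul_pow, ← inv_pow, ← pow_mul, mul_comm j 3, pow_mul]
        norm_num
      have e2 : LC Λ * (((1 / 16 * (1 / 2) ^ j : ℝ)⁻¹ ^ 3 * (C + 1) * (b / 8 ^ j))
          * (b / 8 ^ j) ^ 6) = (LC Λ * (C + 1) * 8 ^ 10 * b) * ((b / 8 ^ j) ^ 6 / 8 ^ 6) := by
        rw [e1]
        field_simp
        norm_num
      have e3 : (b / 8 ^ (j + 1)) ^ 6 = (b / 8 ^ j) ^ 6 / 8 ^ 6 := by
        rw [pow_succ (8 : ℝ) j, ← div_div, div_pow (b / 8 ^ j) 8]
      rw [e2, e3]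
      have h5 : 0 ≤ (b / 8 ^ j) ^ 6 / 8 ^ 6 := by positivity
      nlinarith
    have h5 := hDi (lj (j + 1)) τ hτ
    have h6 := he0 (lj (j + 1)) τ
    constructor <;> linarith

theorem main (hC : 0 < C) (hS : ∀ g : V → ℝ, ContDiff ℝ 1 g → HasCompactSupport g →
    ∫ x, g x ^ 6 ≤ C * (GD g) ^ 3) (Λ : ℝ) (hΛ : 0 ≤ Λ) : ∃ η : ℝ, 0 < η ∧
    ∀ w ψ : ℝ → V → ℝ, Hyp Λ η w ψ → ∀ t ∈ Ioo (-(19 / 20) : ℝ) 0, ∀ x,
      SS (w t) t (1 / 8) x ≤ 0 := by
  have hLC : 0 ≤ LC Λ := by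
    unfold LC
    positivity
  obtain ⟨b, hbd⟩ : ∃ b : ℝ, b = 1 / ((LC Λ * (C + 1) + 1) * 8 ^ 10) := ⟨_, rfl⟩
  have hb : 0 < b := by rw [hbd]; positivity
  have hb1 : LC Λ * (C + 1) * 8 ^ 10 * b ≤ 1 := by
    rw [hbd, mul_one_div, div_le_one (by positivity)]
    nlinarith
  refine ⟨(b ^ 6 / (LC Λ + 1)) ^ 2, by positivity, fun w ψ h t ht x => ?_⟩
  have hη : LC Λ * √((b ^ 6 / (LC Λ + 1)) ^ 2) ≤ b ^ 6 := by
    rw [Real.sqrt_sq (by positivity)]
    have h1 : LC Λ * (b ^ 6 / (LC Λ + 1)) = b ^ 6 * (LC Λ / (LC Λ + 1)) := by ring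
    rw [h1]
    have h2 : LC Λ / (LC Λ + 1) ≤ 1 := (div_le_one (by positivity)).2 (by linarith)
    have h3 : 0 ≤ b ^ 6 := by positivity
    nlinarith
  have ht' : t ∈ Ioo (-1 : ℝ) 0 := ⟨lt_trans (by norm_num) ht.1, ht.2⟩
  have hit := iter hC hS h hΛ hb hb1 hη
  have i0 := int_pp h (l := 1 / 8) (by norm_num) ht' (n := 6) (by norm_num)
  have hle : ee w (1 / 8) t ≤ 0 := by
    have h1 : ∀ j : ℕ, ee w (1 / 8) t ≤ b ^ 6 * (1 / 8) ^ j := by
      intro j
      have h2 : ee w (1 / 8) t ≤ ee w (lj j) t := by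
        refine integral_mono i0 (int_pp h (lj_nn j) ht' (by norm_num)) fun y => ?_
        unfold pp
        refine pow_le_pow_left₀ (le_max_right _ _) (max_le_max ?_ le_rfl) 6
        unfold SS
        linarith [lj_le j]
      refine (h2.trans (hit j t ht).1).trans ?_
      rw [div_pow, div_eq_mul_one_div]
      refine mul_le_mul_of_nonneg_left ?_ (by positivity)
      rw [← pow_mul, one_div_pow]
      exact one_div_le_one_div_of_le (by positivity)
        (pow_le_pow_right₀ (by norm_num) (by omega))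
    have h2 : Tendsto (fun j : ℕ => b ^ 6 * (1 / 8 : ℝ) ^ j) atTop (𝓝 (b ^ 6 * 0)) :=
      (tendsto_pow_atTop_nhds_zero_of_lt_one (by norm_num) (by norm_num)).const_mul _
    rw [mul_zero] at h2
    exact ge_of_tendsto' h2 h1
  have hc : Continuous fun y => pp 6 (SS (w t) t (1 / 8) y) :=
    (pp_cont 6).comp (SS_cd (sl h.sm ht')).continuous
  have hz : (fun y => pp 6 (SS (w t) t (1 / 8) y)) = fun _ => 0 := by
    have h1 : ∫ y, pp 6 (SS (w t) t (1 / 8) y) = 0 :=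
      le_antisymm hle (integral_nonneg fun y => pp_nonneg _ _)
    have h2 := (integral_eq_zero_iff_of_nonneg (fun y => pp_nonneg _ _) i0).1 h1
    exact (Continuous.ae_eq_iff_eq volume hc continuous_const).1 h2
  by_contra hcon
  push Not at hcon
  have h1 := congrFun hz x
  beta_reduce at h1
  rw [pp_pos _ hcon.le] at h1
  have h2 : 0 < SS (w t) t (1 / 8) x ^ 6 := by positivity
  linarith

end iterate

end Pool.Agent.V8H63.OW
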